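import Pool.Agent.L7h3.GX.Den

/-!
# Project QD: the density for the class `N(D) = 5` modulo `16`, statements
-/

set_option autoImplicit false

open scoped Classical

namespace Pool.Agent.L7h3.QD

open H385 (ZI nrm)
open Pool.Agent.Y699 (PS PD)
open Pool.Agent.L7h3.GX (Gd)
open Pool.Agent.Y703.CQ (c2)

/-- QD-DEN5: the theorem `t_DEN` of `L7h3/GX/Den.lean` for the class of the norms that are `5` (instead
of `13`) modulo `16`: port of the files of project GX (`L7h77/GX`, `L7h97/GX`, `L7h23/GX`, ...),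
replacing `13` by `5`; `BIL, EQ, LA, BOX, KEY, ...` that do not mention the class can be used as they
are. -/
def S_DEN5 : Prop := Filter.Tendsto
  (fun X : ℕ => ({D : ZI | nrm D ≤ X ∧ (PS D ∧ nrm D % 16 = 5) ∧ Gd (PD D)}.ncard : ℝ) /
    ({D : ZI | nrm D ≤ X ∧ (PS D ∧ nrm D % 16 = 5)}.ncard : ℝ)) Filter.atTop (nhds c2)

/-- QD-DEN8 (from `S_DEN5` and `GX.t_DEN`): the union of the two classes -/
def S_DEN8 : Prop := Filter.Tendsto
  (fun X : ℕ => ({D : ZI | nrm D ≤ X ∧ (PS D ∧ nrm D % 8 = 5) ∧ Gd (PD D)}.ncard : ℝ) /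
    ({D : ZI | nrm D ≤ X ∧ (PS D ∧ nrm D % 8 = 5)}.ncard : ℝ)) Filter.atTop (nhds c2)

end Pool.Agent.L7h3.QD
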