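import Pool.Agent.L7h3.QD.Qua
import Pool.Agent.L7h3.QD.Den
import Pool.Agent.L7h3.QE.Eq

/-!
# The quartic extensions in elementary terms
-/

set_option autoImplicit false
set_option linter.unusedSectionVars false

open NumberField IsDedekindDomain

namespace Pool.Agent.L7h3.QD

open scoped Classical
open Pool.Agent.Y699
open Pool.Agent.L7h3.MQ
open Pool.Agent.L7h3.MR (incl incl_fam incl_em incl_wt inf_primes)
open Pool.Agent.L7h3.QE (sqf_nd cond_iff)
open Pool.Agent.L7h3.GX (Sol Gd nrm_int isCoprime_of_sqf sg_one)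
open H385 (ZI RQ im1 nrm)
open Pool.Agent.W164.RC (tc_mul tc_star two2 prim_iff_dvd unit_norm unit_cases Ip Ip_spec)
open Pool.Agent.H304R2.EC.A1 (prim prim_mul prim_cancel prim_one prim_norm_odd prim_star eq_one_of_prim
  norm_def' re_mul' im_mul' eq_of_dvd prim_ne_zero exists_prim)
open Pool.Agent.Y715.Z

/-! ### Factorizations -/

/-- factorization of the elements of odd norm over the primary primes dividing a multiple -/
lemma exists_fac {N : ZI} (hN : N ≠ 0) (t : ZI) : t.norm % 2 = 1 → t ∣ N →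
    ∃ (u : ZI) (f : {π : ZI // π ∈ PD N} → ℕ), u.norm = 1 ∧ t = u * ∏ i, fam N i ^ f i := by
  induction t using UniqueFactorizationMonoid.induction_on_prime with
  | h₁ => intro h; rw [Zsqrtd.norm_zero] at h; exact absurd h (by norm_num)
  | h₂ x hx =>
    intro _ _
    obtain ⟨x', rfl⟩ := hx
    exact ⟨x', fun _ => 0, unit_norm x', by simp⟩
  | h₃ a p ha hp ih =>
    intro h hd
    rw [Zsqrtd.norm_mul] at h
    have hp2 : p.norm % 2 = 1 := by
      rw [Int.mul_emod] at h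
      rcases (show p.norm % 2 = 0 ∨ p.norm % 2 = 1 by omega) with h1 | h1
      · rw [h1] at h; simp at h
      · exact h1
    have ha2 : a.norm % 2 = 1 := by
      rw [Int.mul_emod] at h
      rcases (show a.norm % 2 = 0 ∨ a.norm % 2 = 1 by omega) with h1 | h1
      · rw [h1] at h; simp at h
      · exact h1
    obtain ⟨u, f, hu, hf⟩ := ih ha2 ((dvd_mul_left _ _).trans hd)
    obtain ⟨u1, v1, huv, hpr⟩ := exists_prim p hp2
    have hP : PP (u1 * p) := by
      refine ⟨?_, hpr⟩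
      have h1 : Associated (u1 * p) p := by
        refine Associated.symm ⟨⟨u1, v1, huv, by rw [mul_comm]; exact huv⟩, ?_⟩
        exact mul_comm _ _
      exact h1.symm.prime hp
    have hpN : u1 * p ∣ N := by
      have h2 : u1 * p ∣ p := ⟨v1, by linear_combination (-p) * huv⟩
      exact h2.trans ((dvd_mul_right _ _).trans hd)
    set j : {π : ZI // π ∈ PD N} := ⟨u1 * p, (mem_PD hN).2 ⟨hP, hpN⟩⟩ with hj
    refine ⟨v1 * u, fun i => f i + if i = j then 1 else 0, ?_, ?_⟩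
    · have h3 := congrArg Zsqrtd.norm huv
      rw [Zsqrtd.norm_mul, Zsqrtd.norm_one] at h3
      have h4 := GaussianInt.norm_nonneg v1
      rw [Zsqrtd.norm_mul, hu, mul_one]
      exact (Int.eq_one_or_neg_one_of_mul_eq_one' h3).elim (fun h => h.2) (fun h => by omega)
    · have h5 : ∏ i, fam N i ^ (f i + if i = j then 1 else 0) = (∏ i, fam N i ^ f i) * (u1 * p) := by
        simp_rw [pow_add]
        rw [Finset.prod_mul_distrib]
        congr 1
        simp only [pow_ite, pow_one, pow_zero]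
        rw [Finset.prod_ite_eq' Finset.univ j (fun i => fam N i), if_pos (Finset.mem_univ _)]
        rfl
      rw [h5, hf]
      linear_combination (-(u * (∏ i, fam N i ^ f i) * p)) * huv

/-- the data of `D` and `t` -/
theorem exists_da {D t : ZI} (hg : Good D) (ht1 : t.norm % 2 = 1)
    (ht : ∀ ρ : ZI, Prime ρ → ρ ∣ t → ρ ∣ D ∨ ∀ x : ZI, ¬ ρ ∣ x ^ 2 - D)
    {s : ZI} (hs : s = 1 ∨ s = -1) :
    ∃ (N : ZI) (O : Finset {π : ZI // π ∈ PD N}) (ex : {π : ZI // π ∈ PD N} → ℕ) (σ : ZI),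
      Da (fam N) Finset.univ O ex ∧ (σ = 1 ∨ σ = -1) ∧
      s * (D * t ^ 2) = σ * DE (fam N) Finset.univ ex := by
  have hD := hg.ps.ne
  have ht0 : t ≠ 0 := by
    rintro rfl
    rw [Zsqrtd.norm_zero] at ht1
    exact absurd ht1 (by norm_num)
  set N : ZI := D * t with hNdef
  have hN : N ≠ 0 := mul_ne_zero hD ht0
  have hDN : D ∣ N := dvd_mul_right _ _
  have hp := fam_PF hN
  obtain ⟨u, f, hu, hf⟩ := exists_fac hN t ht1 (dvd_mul_left _ _)
  set O : Finset {π : ZI // π ∈ PD N} := Finset.univ.map (incl hD hN hDN) with hO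
  have hDD : DD (fam N) O = D := by
    unfold DD
    rw [hO, Finset.prod_map]
    exact hg.ps.DD
  have hmemO : ∀ i : {π : ZI // π ∈ PD N}, i.1 ∣ D → i ∈ O := by
    intro i hi
    rw [hO, Finset.mem_map]
    refine ⟨⟨i.1, (mem_PD hD).2 ⟨((mem_PD hN).1 i.2).1, hi⟩⟩, Finset.mem_univ _, ?_⟩
    exact Subtype.ext rfl
  set ex : {π : ZI // π ∈ PD N} → ℕ := fun i => (if i ∈ O then 1 else 0) + 2 * f i with hex
  have H : Da (fam N) Finset.univ O ex := by
    refine ⟨hp, Finset.subset_univ _, ?_, ?_, ?_, ?_⟩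
    · rw [hO, Finset.sum_map]
      exact wt_sum hg.ps hg.five
    · intro z hz
      have h1 := ker_of_good hg (fun i => z (incl hD hN hDN i)) (by
        intro v _
        have h2 := hz (incl hD hN hDN v) (Finset.mem_map_of_mem _ (Finset.mem_univ v))
        rw [hO, Finset.sum_map] at h2
        exact h2)
      intro u hu v hv
      rw [hO, Finset.mem_map] at hu hv
      obtain ⟨u', -, rfl⟩ := hu
      obtain ⟨v', -, rfl⟩ := hv
      exact h1 u' (Finset.mem_univ _) v' (Finset.mem_univ _)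
    · intro i hi x
      rw [hDD]
      have hiO : i ∉ O := (Finset.mem_sdiff.1 hi).2
      have hiD : ¬ i.1 ∣ D := fun h => hiO (hmemO i h)
      have hiP := ((mem_PD hN).1 i.2).1.pr
      have h2 := ((mem_PD hN).1 i.2).2
      rcases hiP.dvd_or_dvd h2 with h3 | h3
      · exact absurd h3 hiD
      · rcases ht i.1 hiP h3 with h5 | h5
        · exact absurd h5 hiD
        · exact h5 x
    · intro i _
      rw [hex]
      by_cases h : i ∈ O
      · simp only [h, if_true, iff_true]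
        omega
      · simp only [h, if_false, iff_false]
        omega
  have hDE : DE (fam N) Finset.univ ex = D * (∏ i, fam N i ^ f i) ^ 2 := by
    have h1 : DE (fam N) Finset.univ ex = (∏ i, fam N i ^ (if i ∈ O then 1 else 0)) *
        ∏ i, fam N i ^ (2 * f i) := by
      unfold DE
      rw [← Finset.prod_mul_distrib]
      exact Finset.prod_congr rfl fun i _ => by rw [hex, pow_add]
    have h2 : ∏ i, fam N i ^ (if i ∈ O then 1 else 0) = D := by
      rw [← hDD]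
      unfold DD
      simp only [pow_ite, pow_one, pow_zero]
      rw [Finset.prod_ite_mem, Finset.univ_inter]
    rw [h1, h2, ← Finset.prod_pow]
    congr 1
    exact Finset.prod_congr rfl fun i _ => by rw [← pow_mul, mul_comm]
  have h1 : u ^ 2 = 1 ∨ u ^ 2 = -1 := by
    rcases unit_cases hu with h | h | h | h <;> rw [h]
    · left; decide
    · right; decide
    · left; decide
    · right; decide
  have h2 : s * (D * t ^ 2) = (s * u ^ 2) * DE (fam N) Finset.univ ex := by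
    rw [hDE]
    conv_lhs => rw [hf]
    ring
  refine ⟨N, O, ex, s * u ^ 2, H, ?_, h2⟩
  rcases hs with rfl | rfl <;> rcases h1 with h | h <;> rw [h]
  · left; ring
  · right; ring
  · right; ring
  · left; ring

/-- **the criterion over the quartic extensions** -/
theorem crit (P : Parts) {D t : ZI} (hg : Good D) (ht1 : t.norm % 2 = 1)
    (ht : ∀ ρ : ZI, Prime ρ → ρ ∣ t → ρ ∣ D ∨ ∀ x : ZI, ¬ ρ ∣ x ^ 2 - D)
    {K : Type} [Field K] [NumberField K] (e : ZI ≃+* 𝓞 K)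
    {F : Type} [Field F] [NumberField F] [Algebra K F] {η : F} {s : ZI} (hs : s = 1 ∨ s = -1)
    (hη : η ^ 4 = algebraMap K F (em0 e (s * (D * t ^ 2))))
    (htop : IntermediateField.adjoin K {η} = ⊤) :
    Module.finrank K F = 4 ∧ Finite (q4 (-1 : F)).toAffine.Point ∧
      ∃ L : ℂ → ℂ, DifferentiableOn ℂ L {s | 1 / 2 < s.re} ∧ L 1 ≠ 0 ∧
        ∀ s : ℂ, 3 / 2 < s.re →
          LSeriesSummable ((fun n : ℤ => (n : ℂ)) ∘ (q4 (-1 : F)).LFunction) s ∧
            L s = (q4 (-1 : F)).LSeries s := by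
  obtain ⟨N, O, ex, σ, H, hσ, hσe⟩ := exists_da hg ht1 ht hs
  rw [hσe] at hη
  exact quartic e P H hσ hη htop

/-! ### The criterion in elementary terms -/

/-- the class -/
def Cl5 (D : ZI) : Prop := Squarefree D ∧ two2 ∣ D - 1 ∧ D.norm % 8 = 5

/-- the criterion, elementary form -/
def GoodF (D : ZI) : Prop := Cl5 D ∧ ∀ d d' : ZI, D = d * d' → two2 ∣ d - 1 →
  (∀ π : ZI, Prime π → π ∣ d → ∃ x : ZI, π ∣ x ^ 2 - d') →
  (∀ π : ZI, Prime π → π ∣ d' → ∃ x : ZI, π ∣ x ^ 2 - d) → d = 1 ∨ d' = 1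

lemma nrm8 {D : ZI} : nrm D % 8 = 5 ↔ D.norm % 8 = 5 := by
  have h := nrm_int D
  constructor
  · intro h1
    omega
  · intro h1
    omega

lemma cl5_iff {D : ZI} : Cl5 D ↔ PS D ∧ nrm D % 8 = 5 := by
  constructor
  · rintro ⟨h1, h2, h3⟩
    exact ⟨⟨(prim_iff_dvd D).2 h2, h1⟩, nrm8.2 h3⟩
  · rintro ⟨h1, h2⟩
    exact ⟨h1.sqf, (prim_iff_dvd D).1 h1.prm, nrm8.1 h2⟩

theorem goodF_iff {D : ZI} : GoodF D ↔ Good D := by
  have key : Cl5 D → ∀ d d' : ZI, prim d → prim d' → D = d * d' →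
      PS d ∧ PS d' ∧ (∀ π, Prime π → π ∣ d → ¬ π ∣ d') ∧ (∀ π, Prime π → π ∣ d' → ¬ π ∣ d) := by
    intro hc d d' h1 h2 h3
    have hps := (cl5_iff.1 hc).1
    refine ⟨hps.of_dvd h1 ⟨d', h3⟩, hps.of_dvd h2 ⟨d, by rw [h3]; ring⟩, fun π hπ h4 =>
      sqf_nd hc.1 h3 hπ h4, fun π hπ h4 => sqf_nd hc.1 (by rw [h3]; ring) hπ h4⟩
  constructor
  · rintro ⟨hc, hk⟩
    have hps := (cl5_iff.1 hc).1
    refine ⟨hps, hc.2.2, fun d d' h1 h2 h3 h4 h5 => ?_⟩
    obtain ⟨a1, a2, a3, a4⟩ := key hc d d' h1 h2 h3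
    exact hk d d' h3 ((prim_iff_dvd d).1 h1) ((cond_iff a1 a3).2 h4) ((cond_iff a2 a4).2 h5)
  · intro h
    have hc : Cl5 D := cl5_iff.2 ⟨h.ps, nrm8.2 h.five⟩
    refine ⟨hc, fun d d' h3 h1 h4 h5 => ?_⟩
    have p1 : prim d := (prim_iff_dvd d).2 h1
    have p2 : prim d' := prim_cancel p1 (by rw [← h3]; exact h.ps.prm)
    obtain ⟨a1, a2, a3, a4⟩ := key hc d d' p1 p2 h3
    exact h.ker d d' p1 p2 h3 ((cond_iff a1 a3).1 h4) ((cond_iff a2 a4).1 h5)

lemma gd_of_good {D : ZI} (h : Good D) : Gd (PD D) := by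
  intro v hv π hπ ρ hρ
  have h1 := ker_of_good h (fun i => v i.1) (by
    intro j _
    have h2 := hv j.1 j.2
    have h3 : ∑ ρ ∈ PD D, ep j.1 ρ * (v ρ - v j.1) =
        ∑ i : {π : ZI // π ∈ PD D}, ep j.1 i.1 * (v i.1 - v j.1) :=
      (Finset.sum_coe_sort (PD D) (fun ρ => ep j.1 ρ * (v ρ - v j.1))).symm
    rw [h3] at h2
    rw [← h2]
    refine Finset.sum_congr rfl fun i _ => ?_
    have h4 : ∀ a b : ZMod 2, a + b = a - b := by decide
    rw [h4]
    rfl)
  exact h1 ⟨π, hπ⟩ (Finset.mem_univ _) ⟨ρ, hρ⟩ (Finset.mem_univ _)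

lemma good_of_gd {D : ZI} (hps : PS D) (h5 : D.norm % 8 = 5) (hg : Gd (PD D)) : Good D := by
  refine ⟨hps, h5, ?_⟩
  intro d d' hd hd' hD h1 h2
  have hpd : PS d := hps.of_dvd hd ⟨d', hD⟩
  have hpd' : PS d' := hps.of_dvd hd' ⟨d, by rw [hD]; ring⟩
  have hco : IsCoprime d d' := isCoprime_of_sqf (by rw [← hD]; exact hps.sqf)
  have hU : PD D = PD d ∪ PD d' := by rw [hD]; exact PD_mul hpd.ne hpd'.ne
  have hdisj : Disjoint (PD d) (PD d') := PD_disj hpd.ne hpd'.ne hco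
  have hnd : ∀ π ∈ PD d, ∀ u ∈ PD d', ¬ π ∣ u := by
    intro π hπ u hu hdv
    have e := ((mem_PD hpd.ne).1 hπ).1.eq_of_dvd ((mem_PD hpd'.ne).1 hu).1 hdv
    exact Finset.disjoint_left.1 hdisj hπ (by rw [e]; exact hu)
  have hnd' : ∀ π ∈ PD d', ∀ u ∈ PD d, ¬ π ∣ u := by
    intro π hπ u hu hdv
    have e := ((mem_PD hpd'.ne).1 hπ).1.eq_of_dvd ((mem_PD hpd.ne).1 hu).1 hdv
    exact Finset.disjoint_left.1 hdisj (by rw [← e] at hu; exact hu) hπ
  have hneg : ∀ a : ZMod 2, a * (0 - 1) = a := by decide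
  have hneg' : ∀ a : ZMod 2, a * (1 - 0) = a := by decide
  have hsol : Sol (PD D) (fun π => if π ∈ PD d then 1 else 0) := by
    intro π hπ
    rw [hU, Finset.sum_union hdisj]
    rw [hU, Finset.mem_union] at hπ
    by_cases hπd : π ∈ PD d
    · have e1 : ∑ ρ ∈ PD d, ep π ρ * ((if ρ ∈ PD d then (1 : ZMod 2) else 0) -
          if π ∈ PD d then 1 else 0) = 0 := by
        refine Finset.sum_eq_zero fun ρ hρ => ?_
        rw [if_pos hρ, if_pos hπd, sub_self, mul_zero]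
      have e2 : ∑ ρ ∈ PD d', ep π ρ * ((if ρ ∈ PD d then (1 : ZMod 2) else 0) -
          if π ∈ PD d then 1 else 0) = ∑ ρ ∈ PD d', ep π ρ := by
        refine Finset.sum_congr rfl fun ρ hρ => ?_
        rw [if_neg (fun h => Finset.disjoint_left.1 hdisj h hρ), if_pos hπd, hneg]
      rw [e1, e2, zero_add]
      apply sg_one
      rw [← qr_prod_ep ((mem_PD hpd.ne).1 hπd).1 (hnd π hπd), hpd'.prod]
      exact h1 π hπd
    · have hπd' : π ∈ PD d' := hπ.resolve_left hπd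
      have e1 : ∑ ρ ∈ PD d', ep π ρ * ((if ρ ∈ PD d then (1 : ZMod 2) else 0) -
          if π ∈ PD d then 1 else 0) = 0 := by
        refine Finset.sum_eq_zero fun ρ hρ => ?_
        rw [if_neg (fun h => Finset.disjoint_left.1 hdisj h hρ), if_neg hπd, sub_self, mul_zero]
      have e2 : ∑ ρ ∈ PD d, ep π ρ * ((if ρ ∈ PD d then (1 : ZMod 2) else 0) -
          if π ∈ PD d then 1 else 0) = ∑ ρ ∈ PD d, ep π ρ := by
        refine Finset.sum_congr rfl fun ρ hρ => ?_
        rw [if_pos hρ, if_neg hπd, hneg']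
      rw [e1, e2, add_zero]
      apply sg_one
      rw [← qr_prod_ep ((mem_PD hpd'.ne).1 hπd').1 (hnd' π hπd'), hpd.prod]
      exact h2 π hπd'
  by_contra hcon
  push Not at hcon
  obtain ⟨hn1, hn2⟩ := hcon
  have hne : ∀ x : ZI, PS x → x ≠ 1 → ∃ π, π ∈ PD x := by
    intro x hx hx1
    by_contra hno
    push Not at hno
    have : PD x = ∅ := Finset.eq_empty_of_forall_notMem hno
    apply hx1
    rw [← hx.prod, this, Finset.prod_empty]
  obtain ⟨π, hπ⟩ := hne d hpd hn1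
  obtain ⟨ρ, hρ⟩ := hne d' hpd' hn2
  have h3 := hg _ hsol π (by rw [hU]; exact Finset.mem_union_left _ hπ) ρ
    (by rw [hU]; exact Finset.mem_union_right _ hρ)
  rw [if_pos hπ, if_neg (fun h => Finset.disjoint_left.1 hdisj h hρ)] at h3
  exact one_ne_zero h3

theorem good_iff8 {D : ZI} : GoodF D ↔ (PS D ∧ nrm D % 8 = 5) ∧ Gd (PD D) := by
  rw [goodF_iff]
  exact ⟨fun h => ⟨⟨h.ps, nrm8.2 h.five⟩, gd_of_good h⟩, fun h => good_of_gd h.1.1 (nrm8.1 h.1.2) h.2⟩

end Pool.Agent.L7h3.QD
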