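import Pool.Agent.L7h3.QD.Fld

/-!
# The complete `L`-series
-/

set_option autoImplicit false
set_option linter.unusedSectionVars false

open NumberField IsDedekindDomain

namespace Pool.Agent.L7h3.QD

open scoped Classical
open WithZero
open Pool.Agent.L7h3.MQ
open Pool.Agent.L7h3.MR
open Pool.Agent.W189.NF
open Pool.Agent.H921R2.TatePole (nm two_le_nm nm_summable below)
open Pool.Agent.Y696 (HBd LSeries_hasProd' coeff_bd)
open Pool.Agent.Y715.Z (q4)

variable {K : Type} [Field K] [NumberField K]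

lemma hb_of_nm {E : WeierstrassCurve K} {v : HeightOneSpectrum (𝓞 K)} (h : nm v ≤ 4) :
    HB (aV E v) (eV E v) (nm v) := by
  have hle := aV_le E v
  have hc := card_res (K := K) v
  by_cases hg : ((E.baseChange (v.adicCompletion K)).minimal
      (v.adicCompletionIntegers K)).HasGoodReduction (v.adicCompletionIntegers K)
  · left
    right
    have he : eV E v = (nm v : ℤ) := by
      unfold eV eLoc
      rw [if_pos hg, hc]
    have h0 : (0 : ℤ) ≤ nm v := by positivity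
    have h4 : (nm v : ℤ) ≤ 4 := by exact_mod_cast h
    have h5 : (aV E v) ^ 2 ≤ 4 * (nm v : ℤ) := by
      have h6 : (aV E v) ^ 2 ≤ (nm v : ℤ) ^ 2 := sq_le_sq' (by have := abs_le.1 hle; linarith [this.1])
        (abs_le.1 hle).2
      nlinarith
    set a : ℝ := (aV E v : ℝ) with ha
    set q : ℝ := (nm v : ℝ) with hq
    have h6 : a ^ 2 ≤ 4 * q := by
      rw [ha, hq]
      exact_mod_cast h5
    have h7 : 0 ≤ q - a ^ 2 / 4 := by linarith
    refine ⟨⟨a / 2, Real.sqrt (q - a ^ 2 / 4)⟩, ?_, ?_, ?_⟩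
    · apply Complex.ext
      · simp [ha]
      · simp
    · rw [he, Complex.mul_conj, Complex.normSq_mk]
      have : a / 2 * (a / 2) + Real.sqrt (q - a ^ 2 / 4) * Real.sqrt (q - a ^ 2 / 4) = q := by
        rw [Real.mul_self_sqrt h7]; ring
      rw [this, hq]
      push_cast
      rfl
    · rw [Complex.mul_conj, Complex.normSq_mk]
      have : a / 2 * (a / 2) + Real.sqrt (q - a ^ 2 / 4) * Real.sqrt (q - a ^ 2 / 4) = q := by
        rw [Real.mul_self_sqrt h7]; ring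
      rw [this, hq]
      push_cast
      rfl
  · right
    constructor
    · unfold eV eLoc
      rw [if_neg hg]
    · unfold aV aLoc
      rw [if_neg hg]
      split_ifs <;> simp

lemma norm_cpow_lt {q : ℕ} (hq : 2 ≤ q) {s : ℂ} (hs : 1 / 2 < s.re) :
    ‖(q : ℂ) ^ (-s)‖ * Real.sqrt q < 1 := by
  have h0 : 0 < q := by omega
  have hq0 : (0 : ℝ) < q := by exact_mod_cast h0
  rw [Complex.norm_natCast_cpow_of_pos h0, Real.sqrt_eq_rpow, ← Real.rpow_add hq0, Complex.neg_re]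
  refine Real.rpow_lt_one_of_one_lt_of_neg ?_ (by linarith)
  exact_mod_cast (by omega : 1 < q)

lemma den_ne {a e : ℤ} {q : ℕ} (hq : 2 ≤ q) (h : HB a e q) {s : ℂ} (hs : 1 / 2 < s.re) :
    (1 - (a : ℂ) * (q : ℂ) ^ (-s) + (e : ℂ) * ((q : ℂ) ^ (-s)) ^ 2) ≠ 0 := by
  have h1 := norm_cpow_lt hq hs
  set X := (q : ℂ) ^ (-s) with hX
  have hne : ∀ y : ℂ, ‖y‖ ≤ Real.sqrt q → 1 - y * X ≠ 0 := by
    intro y hy h0
    have h2 : y * X = 1 := by linear_combination -h0
    have h3 := congrArg norm h2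
    rw [norm_mul, norm_one] at h3
    have h4 : ‖y‖ * ‖X‖ ≤ Real.sqrt q * ‖X‖ := by gcongr
    rw [h3, mul_comm] at h4
    linarith
  rcases h with (⟨ha, he⟩ | ⟨x, ha, he, hx⟩) | ⟨he, ha⟩
  · rw [ha, he]; simp
  · have hxn : ‖x‖ = Real.sqrt q := by
      have h3 : ‖x‖ ^ 2 = q := by
        have := Complex.mul_conj x
        rw [hx] at this
        rw [← Complex.normSq_eq_norm_sq]
        exact_mod_cast this.symm
      rw [← h3, Real.sqrt_sq (norm_nonneg _)]
    have e1 : 1 - (a : ℂ) * X + (e : ℂ) * X ^ 2 = (1 - x * X) * (1 - (starRingEnd ℂ) x * X) := by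
      rw [ha, he]; ring
    rw [e1]
    exact mul_ne_zero (hne _ hxn.le) (hne _ (by rw [RCLike.norm_conj]; exact hxn.le))
  · have e1 : 1 - (a : ℂ) * X + (e : ℂ) * X ^ 2 = 1 - (a : ℂ) * X := by rw [he]; simp
    rw [e1]
    refine hne _ ?_
    have h3 : ‖((a : ℤ) : ℂ)‖ ≤ 1 := by
      rw [Complex.norm_intCast]
      exact_mod_cast ha
    refine h3.trans ?_
    rw [Real.one_le_sqrt]
    exact_mod_cast (by omega : 1 ≤ q)

lemma Fac_diff {E : WeierstrassCurve K} {v : HeightOneSpectrum (𝓞 K)}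
    (h : HB (aV E v) (eV E v) (nm v)) : DifferentiableOn ℂ (fun s => Fac E s v) {s | 1 / 2 < s.re} := by
  intro s hs
  apply DifferentiableAt.differentiableWithinAt
  have h2 := two_le_nm v
  have h3 : DifferentiableAt ℂ (fun s : ℂ => (nm v : ℂ) ^ (-s)) s := by
    refine DifferentiableAt.const_cpow (differentiableAt_id.neg) (Or.inl ?_)
    exact_mod_cast (by omega : nm v ≠ 0)
  unfold Fac
  refine DifferentiableAt.inv ?_ (den_ne h2 h hs)
  exact ((h3.const_mul _).const_sub 1).add ((h3.pow 2).const_mul _)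

lemma Fac_one_ne {E : WeierstrassCurve K} {v : HeightOneSpectrum (𝓞 K)}
    (h : HB (aV E v) (eV E v) (nm v)) {s : ℂ} (hs : 1 / 2 < s.re) : Fac E s v ≠ 0 := by
  unfold Fac
  exact inv_ne_zero (den_ne (two_le_nm v) h hs)

/-- **the complete `L`-series** -/
theorem full {δ : K} (hδ : δ ≠ 0) (h : CoL δ)
    (h4 : ∀ v : HeightOneSpectrum (𝓞 K), (2 : 𝓞 K) ∈ v.asIdeal → nm v ≤ 4) :
    ∃ L : ℂ → ℂ, DifferentiableOn ℂ L {s | 1 / 2 < s.re} ∧ L 1 ≠ 0 ∧
      ∀ s : ℂ, 3 / 2 < s.re → LSeriesSummable ((fun n : ℤ => (n : ℂ)) ∘ (q4 δ).LFunction) s ∧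
        L s = (q4 δ).LSeries s := by
  have hB : ∀ v : HeightOneSpectrum (𝓞 K), HB (aV (q4 δ) v) (eV (q4 δ) v) (nm v) := by
    intro v
    by_cases hv : (2 : 𝓞 K) ∈ v.asIdeal
    · exact hb_of_nm (h4 v hv)
    · exact Or.inl (hbd_gen hv hδ)
  have hfin : {v : HeightOneSpectrum (𝓞 K) | (2 : 𝓞 K) ∈ v.asIdeal}.Finite := by
    refine Set.Finite.subset (?_ : {v : HeightOneSpectrum (𝓞 K) | nm v ≤ 4}.Finite) fun v hv => h4 v hv
    have := northcott_nm (K := K)
    exact this.finite_le 4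
  set S := hfin.toFinset with hS
  obtain ⟨L, a, b, c⟩ := h
  refine ⟨fun s => L s * ∏ v ∈ S, Fac (q4 δ) s v, ?_, ?_, ?_⟩
  · refine a.differentiableOn.mul ?_
    exact DifferentiableOn.fun_finset_prod fun v _ => Fac_diff (hB v)
  · refine mul_ne_zero b (Finset.prod_ne_zero_iff.2 fun v _ => Fac_one_ne (hB v) ?_)
    norm_num
  · intro s hs
    refine ⟨LSeries_sumB hB hs, ?_⟩
    have h1 := c s hs
    have h2 : HasProd (fun v : HeightOneSpectrum (𝓞 K) => if v ∈ S then Fac (q4 δ) s v else 1)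
        (∏ v ∈ S, if v ∈ S then Fac (q4 δ) s v else 1) :=
      hasProd_prod_of_ne_finset_one fun v hv => if_neg hv
    have h3 : ∏ v ∈ S, (if v ∈ S then Fac (q4 δ) s v else 1) = ∏ v ∈ S, Fac (q4 δ) s v :=
      Finset.prod_congr rfl fun v hv => if_pos hv
    rw [h3] at h2
    refine (h1.mul h2).unique ((LSeries_hasProdB hB hs).congr_fun fun v => ?_)
    have hm : v ∈ S ↔ (2 : 𝓞 K) ∈ v.asIdeal := by rw [hS, Set.Finite.mem_toFinset]; rfl
    by_cases hv : (2 : 𝓞 K) ∈ v.asIdeal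
    · rw [if_pos hv, if_pos (hm.2 hv), one_mul]
    · rw [if_neg hv, if_neg (fun h => hv (hm.1 h)), mul_one]

end Pool.Agent.L7h3.QD
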