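import Pool.Agent.L7h3.QD.Stm

/-!
# Project QD (helper3): the main congruence for a general function on the division points

Port of `Pool/Agent/Y699/Qw.lean` (there `w = 3`, `c = 2`, `g = hh L`).
-/

set_option autoImplicit false
set_option linter.unusedSectionVars false
set_option linter.unusedSimpArgs false
set_option linter.unusedVariables false

open Filter Complex
open scoped Topology PeriodPair
open H667R3 hiding sq
open Pool.Agent.TH936.CM
open Pool.Agent.W192.HK hiding Od

namespace Pool.Agent.L7h3.QD

open Pool.Agent.Y699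
open H385 (ZI RQ im1 nrm)
open Pool.Agent.H304R3.HK (tc HC LH chi_le)
open Pool.Agent.W164.RC (tc_mul tc_star two2 prim_iff_dvd unit_cases)
open Pool.Agent.H304R2.EC.A1 (prim prim_mul prim_cancel prim_one prim_norm_odd prim_star eq_one_of_prim
  norm_def' re_mul' im_mul' eq_of_dvd prim_ne_zero)

variable {L : PeriodPair} {Ω : ℂ} {ι : Type} [Fintype ι] [DecidableEq ι] {pr : ι → ZI}

open Classical in
/-- sums of unit invariant functions -/
lemma orbit_sumc {D π c : ZI} (hD : π ∣ D) (hπ : PP π) (hc : ¬ π ∣ c) (hw : wq π % 2 = 1)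
    [Fintype (RQ D)] {G : ZI → ℂ}
    (hper : ∀ a b, D ∣ a - b → G a = G b) (hi : ∀ a, G (im1 * a) = G a)
    (hz : ∀ a, π ∣ a → G a = 0) :
    1 / 4 * ∑ q : RQ D, G q.out = ∑ q : RQ D, (if q4 π (c * q.out) = 1 then G q.out else 0) := by
  have hik : ∀ k : ℕ, ∀ a, G (im1 ^ k * a) = G a := by
    intro k
    induction k with
    | zero => intro a; rw [pow_zero, one_mul]
    | succ k ih => intro a; rw [pow_succ, mul_assoc, ih, hi]
  have hnk : ∀ k : ℕ, (im1 ^ k : ZI).norm = 1 := by
    intro k
    induction k with
    | zero => simp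
    | succ k ih => rw [pow_succ, Zsqrtd.norm_mul, ih, im1_norm, one_mul]
  have h1 : ∀ q : RQ D, G q.out = ∑ k ∈ Finset.range 4,
      (if q4 π (c * (im1 ^ k * q.out)) = 1 then G q.out else 0) := by
    intro q
    by_cases hd : π ∣ q.out
    · rw [hz _ hd]
      simp
    · have hd2 : ¬ π ∣ c * q.out := by
        intro h'
        rcases hπ.pr.dvd_or_dvd h' with h | h
        · exact hc h
        · exact hd h
      have e1 : ∀ k : ℕ, q4 π (c * (im1 ^ k * q.out)) = (im1 ^ wq π) ^ k * q4 π (c * q.out) := by
        intro k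
        have e2 : c * (im1 ^ k * q.out) = im1 ^ k * (c * q.out) := by ring
        rw [e2, q4_mul hπ, q4_unit hπ (hnk k), ← pow_mul, ← pow_mul, mul_comm k]
        rfl
      have hu := q4_norm hπ hd2
      simp_rw [e1]
      have hw4 : wq π % 4 = 1 ∨ wq π % 4 = 3 := by omega
      have ht : im1 ^ wq π = im1 ∨ im1 ^ wq π = -im1 := by
        rcases hw4 with h | h
        · left
          rw [unit_pow_mod im1_norm (n := 1) (by rw [h]), pow_one]
        · right
          rw [unit_pow_mod im1_norm (n := 3) (by rw [h])]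
          decide
      have e2 : (im1 : ZI) ^ 2 = -1 := by decide
      have e3 : (im1 : ZI) ^ 3 = -im1 := by decide
      rw [Finset.sum_range_succ, Finset.sum_range_succ, Finset.sum_range_succ,
        Finset.sum_range_succ, Finset.sum_range_zero]
      rcases unit_cases hu with h | h | h | h <;> rcases ht with h' | h' <;> rw [h, h']
      · rw [if_pos (by decide), if_neg (by decide), if_neg (by decide), if_neg (by decide)]; ring
      · rw [if_pos (by decide), if_neg (by decide), if_neg (by decide), if_neg (by decide)]; ring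
      · rw [if_neg (by decide), if_neg (by decide), if_neg (by decide), if_pos (by decide)]; ring
      · rw [if_neg (by decide), if_pos (by decide), if_neg (by decide), if_neg (by decide)]; ring
      · rw [if_neg (by decide), if_neg (by decide), if_pos (by decide), if_neg (by decide)]; ring
      · rw [if_neg (by decide), if_neg (by decide), if_pos (by decide), if_neg (by decide)]; ring
      · rw [if_neg (by decide), if_pos (by decide), if_neg (by decide), if_neg (by decide)]; ring
      · rw [if_neg (by decide), if_neg (by decide), if_neg (by decide), if_pos (by decide)]; ring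
  have h2 : ∀ k : ℕ, ∑ q : RQ D, (if q4 π (c * (im1 ^ k * q.out)) = 1 then G q.out else 0) =
      ∑ q : RQ D, (if q4 π (c * q.out) = 1 then G q.out else 0) := by
    intro k
    have hu : IsUnit (Ideal.Quotient.mk (Ideal.span {D}) (im1 ^ k)) := by
      rw [map_pow]; exact (im1_isUnit D).pow k
    rw [← sum_unit_mul hu (fun q => if q4 π (c * q.out) = 1 then G q.out else 0)]
    refine Finset.sum_congr rfl fun q _ => ?_
    have e1 := out_mul D (im1 ^ k) q
    have e2 : q4 π (c * (Ideal.Quotient.mk (Ideal.span {D}) (im1 ^ k) * q).out) =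
        q4 π (c * (im1 ^ k * q.out)) := by
      apply q4_per hπ
      rw [← mul_sub]
      exact (hD.trans e1).mul_left _
    rw [e2, hper _ _ e1, hik]
  rw [Finset.sum_congr rfl fun q _ => h1 q, Finset.sum_comm, Finset.sum_congr rfl fun k _ => h2 k,
    Finset.sum_const, Finset.card_range]
  simp

/-- the hypotheses on the function -/
structure GF (L : PeriodPair) (w : ℕ) (g : ℂ → ℂ) : Prop where
  hw : w = 1 ∨ w = 3
  per : ∀ x y : ℂ, x - y ∈ L.lattice → g x = g y
  im : ∀ x : ℂ, g (I * x) = (if w = 1 then -I else I) * g x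

lemma GF.inv {w : ℕ} {g : ℂ → ℂ} (G : GF L w g) (hp : PF pr) {V : Finset ι} {e : ι → ℕ}
    (hW : Wt pr V e % 4 = w) (a : ZI) (x : ℂ) :
    tc (c4 pr V e (im1 * a)) * g (I * x) = tc (c4 pr V e a) * g x := by
  rw [G.im, c4_mul hp, c4_unit hp V e im1_norm]
  rcases G.hw with h | h
  · subst h
    rw [unit_pow_mod im1_norm (n := 1) (by rw [hW]), pow_one, if_pos rfl, tc_mul, tc_im1]
    linear_combination (-(tc (c4 pr V e a) * g x)) * I_sq
  · subst h
    rw [unit_pow_mod im1_norm (n := 3) (by rw [hW]), if_neg (by norm_num)]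
    have e3 : (im1 : ZI) ^ 3 = -im1 := by decide
    rw [e3, tc_mul, tc_neg, tc_im1]
    linear_combination (-(tc (c4 pr V e a) * g x)) * I_sq

section val

variable {Γ : Type} [LinearOrderedCommGroupWithZero Γ] {v : Valuation ℂ Γ} (h2 : v 2 < 1)
  (h : GLat L Ω)

/-- the relation before evaluation -/
lemma rel_exactc (hp : PF pr) {w : ℕ} {g : ℂ → ℂ} (G : GF L w g) {c : ZI} (hc : ∀ i, ¬ pr i ∣ c)
    {V : Finset ι} {r : ι} (hr : r ∈ V) (hw : wq (pr r) % 2 = 1)
    {e : ι → ℕ} (he : ∀ i ∈ V.erase r, 1 ≤ e i) (hW : Wt pr V e % 4 = w)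
    [Fintype (RQ (DD pr V))] (h : GLat L Ω) :
    ∑ S ∈ (V.erase r).powerset, (-1) ^ S.card * MG g c Ω pr V (es pr r e S) =
      ∑ q : RQ (DD pr V), (open Classical in (if q4 (pr r) (c * q.out) = 1 then
        (∏ i ∈ V.erase r, df pr e i (c * q.out)) * g (zq Ω (DD pr V) q.out) else 0)) := by
  classical
  have hD0 := DD_ne hp V
  -- each term
  have h1 : ∀ S ∈ (V.erase r).powerset, MG g c Ω pr V (es pr r e S) =
      ∑ q : RQ (DD pr V), (if q4 (pr r) (c * q.out) = 1 then
        tc (c4 pr V (es pr r e S) (c * q.out)) * g (zq Ω (DD pr V) q.out) else 0) := by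
    intro S hS
    rw [Finset.mem_powerset] at hS
    have hWS : Wt pr V (es pr r e S) % 4 = w := by rw [es_Wt hr hw he hS, hW]
    unfold MG
    refine orbit_sumc (G := fun a => tc (c4 pr V (es pr r e S) (c * a)) * g (zq Ω (DD pr V) a))
      (dvd_DD hr) (hp.pp r) (hc r) hw ?_ ?_ ?_
    · intro a b hab
      rw [c4_per hp V _ (a := c * a) (b := c * b) (by rw [← mul_sub]; exact hab.mul_left _),
        G.per _ _ (zq_sub h.lat hD0 hab)]
    · intro a
      have e1 : c * (im1 * a) = im1 * (c * a) := by ring
      rw [e1, zq_mul, tc_im1, G.inv hp hWS]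
    · intro a ha
      rw [c4_zero _ hr (ha.mul_left _), tc_zero, zero_mul]
  rw [Finset.sum_congr rfl fun S hS => by rw [h1 S hS, Finset.mul_sum], Finset.sum_comm]
  refine Finset.sum_congr rfl fun q _ => ?_
  by_cases hq : q4 (pr r) (c * q.out) = 1
  · simp only [if_pos hq]
    have hnd : ¬ pr r ∣ c * q.out := by
      intro hd
      rw [q4_zero hd] at hq
      exact absurd hq (by decide)
    have h3 : ∏ i ∈ V.erase r, df pr e i (c * q.out) = ∑ S ∈ (V.erase r).powerset,
        (-1) ^ S.card * tc (c4 pr V (es pr r e S) (c * q.out)) := by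
      have h4 : ∀ i ∈ V.erase r, df pr e i (c * q.out) =
          -tc (fe (pr i) (e i - 1) (c * q.out)) + tc (fe (pr i) (e i) (c * q.out)) := by
        intro i _
        unfold df; ring
      rw [Finset.prod_congr rfl h4, Finset.prod_add]
      refine Finset.sum_congr rfl fun S hS => ?_
      rw [Finset.mem_powerset] at hS
      rw [Finset.prod_neg, mul_assoc]
      congr 1
      unfold c4
      rw [tc_prod, ← Finset.mul_prod_erase V _ hr]
      have e1 : tc (fe (pr r) (es pr r e S r) (c * q.out)) = 1 := by
        unfold fe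
        rw [if_neg hnd, hq, one_pow, tc_one]
      rw [e1, one_mul, ← Finset.prod_sdiff hS, mul_comm]
      congr 1
      · refine Finset.prod_congr rfl fun i hi => ?_
        rw [Finset.mem_sdiff] at hi
        unfold es
        rw [if_neg (Finset.mem_erase.1 hi.1).1, if_neg hi.2]
      · refine Finset.prod_congr rfl fun i hi => ?_
        unfold es
        rw [if_neg (Finset.mem_erase.1 (hS hi)).1, if_pos hi]
    rw [h3, Finset.sum_mul]
    exact Finset.sum_congr rfl fun S _ => by ring
  · simp only [if_neg hq, mul_zero, Finset.sum_const_zero]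

include h2 in
/-- the evenness of the main term -/
lemma even_sumc (hp : PF pr) {k : ZI} {V : Finset ι} {r : ι} (hr : r ∈ V) (hc : 2 ≤ V.card)
    [Fintype (RQ (DD pr V))] :
    v (∑ q : RQ (DD pr V), (open Classical in (if q4 (pr r) (k * q.out) = 1 then
        (∏ i ∈ V.erase r, uu (dd pr i (k * q.out))) else 0))) ≤ v 2 := by
  classical
  obtain ⟨j, hj⟩ : (V.erase r).Nonempty := by
    rw [← Finset.card_pos, Finset.card_erase_of_mem hr]
    omega
  have hjV : j ∈ V := Finset.mem_of_mem_erase hj
  have hjr : j ≠ r := (Finset.mem_erase.1 hj).1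
  have hDj : DD pr V = pr j * DD pr (V.erase j) := by
    unfold DD
    exact (Finset.mul_prod_erase V pr hjV).symm
  have hcop : IsCoprime (pr j) (DD pr (V.erase j)) := by
    unfold DD
    rw [IsCoprime.prod_right_iff]
    intro i hi
    exact (hp.pp j).cop (hp.pp i) fun h => (Finset.mem_erase.1 hi).1 (hp.inj h).symm
  obtain ⟨x, y, hxy⟩ := hcop
  set M := DD pr (V.erase j) with hM
  set c : ZI := x * pr j - y * M with hcdef
  have c1 : M ∣ c - 1 := ⟨-(2 * y), by rw [hcdef]; linear_combination hxy⟩
  have c2 : pr j ∣ c - (-1) := ⟨2 * x, by rw [hcdef]; linear_combination -hxy⟩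
  have c3 : DD pr V ∣ c * c - 1 := by
    obtain ⟨a, ha⟩ := c1
    obtain ⟨b, hb⟩ := c2
    exact ⟨a * b, by rw [hDj]; linear_combination (c + 1) * ha + M * a * hb⟩
  set σ : RQ (DD pr V) → RQ (DD pr V) := fun q => Ideal.Quotient.mk (Ideal.span {DD pr V}) c * q with hσ
  have hσσ : ∀ q, σ (σ q) = q := by
    intro q
    rw [hσ]
    show Ideal.Quotient.mk (Ideal.span {DD pr V}) c * (Ideal.Quotient.mk (Ideal.span {DD pr V}) c * q) = q
    have e1 : Ideal.Quotient.mk (Ideal.span {DD pr V}) (c * c) = 1 := by
      rw [← map_one (Ideal.Quotient.mk (Ideal.span {DD pr V})), Ideal.Quotient.eq,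
        Ideal.mem_span_singleton]
      exact c3
    rw [← mul_assoc, ← map_mul, e1, one_mul]
  have hq4 : ∀ i ∈ V, ∀ q : RQ (DD pr V), q4 (pr i) (k * (σ q).out) =
      q4 (pr i) c * q4 (pr i) (k * q.out) := by
    intro i hi q
    rw [← q4_mul (hp.pp i)]
    apply q4_per (hp.pp i)
    have e1 := out_mul (DD pr V) c q
    have e2 : k * (σ q).out - c * (k * q.out) = k * ((σ q).out - c * q.out) := by ring
    rw [e2]
    exact ((dvd_DD hi).trans e1).mul_left _
  have hone : ∀ i ∈ V, i ≠ j → q4 (pr i) c = 1 := by
    intro i hi hij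
    have : pr i ∣ c - 1 := (dvd_DD (Finset.mem_erase.2 ⟨hij, hi⟩)).trans c1
    rw [q4_per (hp.pp i) this, q4_one (hp.pp i)]
  have hsqj : q4 (pr j) c ^ 2 = 1 := by
    rw [q4_per (hp.pp j) c2, q4_neg_one (hp.pp j), ← pow_mul, mul_comm, pow_mul]
    norm_num
  have hdd : ∀ i ∈ V, ∀ q : RQ (DD pr V), dd pr i (k * (σ q).out) = dd pr i (k * q.out) := by
    intro i hi q
    unfold dd
    rw [hq4 i hi, mul_pow]
    by_cases hij : i = j
    · rw [hij, hsqj, one_mul]
    · rw [hone i hi hij, one_pow, one_mul]
  have key := pair_sum h2 σ hσσ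
    (fun q => if q4 (pr r) (k * q.out) = 1 then (∏ i ∈ V.erase r, uu (dd pr i (k * q.out))) else 0)
    (by
      intro q
      show (if q4 (pr r) (k * (σ q).out) = 1 then (∏ i ∈ V.erase r, uu (dd pr i (k * (σ q).out))) else 0)
        = _
      rw [hq4 r hr, hone r hr hjr.symm, one_mul]
      rw [Finset.prod_congr rfl fun i hi => by rw [hdd i (Finset.mem_of_mem_erase hi) q]])
    (by
      intro q hq hqq
      by_cases h1 : q4 (pr r) (k * q.out) = 1
      · simp only [if_pos h1] at hq
        rw [Finset.prod_ne_zero_iff] at hq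
        have h3 := hq j hj
        have h4 : q4 (pr j) (k * q.out) ^ 2 = -1 := by
          unfold dd at h3
          by_contra h5
          rw [if_neg h5, uu_zero] at h3
          exact h3 rfl
        have h5 : ¬ pr j ∣ k * q.out := by
          intro h6
          rw [q4_zero h6] at h4
          exact absurd h4 (by decide)
        have h6 : pr j ∣ (c - 1) * q.out := by
          have e1 : Ideal.Quotient.mk (Ideal.span {DD pr V}) ((c - 1) * q.out) = 0 := by
            rw [map_mul, map_sub, map_one, Ideal.Quotient.mk_out, sub_mul, one_mul]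
            exact sub_eq_zero.2 hqq
          rw [Ideal.Quotient.eq_zero_iff_mem, Ideal.mem_span_singleton] at e1
          exact (dvd_DD hjV).trans e1
        rcases (hp.pp j).pr.dvd_or_dvd h6 with h7 | h7
        · have h8 := dvd_sub c2 h7
          have e1 : c - (-1) - (c - 1) = 2 := by ring
          rw [e1] at h8
          exact not_dvd_two (hp.pp j) h8
        · exact h5 (h7.mul_left _)
      · simp only [if_neg h1] at hq
        exact hq rfl)
    1
    (by
      intro q
      split_ifs
      · rw [map_prod]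
        exact Finset.prod_le_one' fun i _ => v_uu _
      · rw [map_zero]; exact zero_le)
    Finset.univ (fun q _ => Finset.mem_univ _)
  rw [mul_one] at key
  exact key

include h in
lemma zq_gc {g : ℂ → ℂ} (hg : ∀ x : ℂ, OT L x → Cg v (g x) 1)
    (hp : PF pr) {k : ZI} {V : Finset ι} {r : ι} (hr : r ∈ V) {t : ZI} (ht : q4 (pr r) (k * t) = 1) :
    Cg v (g (zq Ω (DD pr V) t)) 1 := by
  apply hg
  apply zq_OT h (DD_prim hp V)
  intro hd
  have h1 : pr r ∣ k * t := ((dvd_DD hr).trans hd).mul_left _
  rw [q4_zero h1] at ht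
  exact absurd ht (by decide)

include h2 h in
/-- the relation -/
lemma rel_cgc (hp : PF pr) {w : ℕ} {g : ℂ → ℂ} (G : GF L w g) (hg : ∀ x : ℂ, OT L x → Cg v (g x) 1)
    {c : ZI} (hcc : ∀ i, ¬ pr i ∣ c) {V : Finset ι} {r : ι} (hr : r ∈ V) (hw : wq (pr r) % 2 = 1)
    {e : ι → ℕ} (he : ∀ i ∈ V.erase r, 1 ≤ e i) (hW : Wt pr V e % 4 = w) (hc : 2 ≤ V.card)
    [Fintype (RQ (DD pr V))] :
    v (∑ S ∈ (V.erase r).powerset, (-1) ^ S.card * (MG g c Ω pr V (es pr r e S) /
      (1 + I) ^ (V.card - 1))) < 1 := by
  classical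
  have h1I : (1 + I : ℂ) ≠ 0 := one_I_ne
  have e1 : ∑ S ∈ (V.erase r).powerset, (-1) ^ S.card * (MG g c Ω pr V (es pr r e S) /
      (1 + I) ^ (V.card - 1)) = ∑ q : RQ (DD pr V), (if q4 (pr r) (c * q.out) = 1 then
        (∏ i ∈ V.erase r, (df pr e i (c * q.out) / (1 + I))) * g (zq Ω (DD pr V) q.out) else 0) := by
    have h1 := rel_exactc hp G hcc hr hw he hW h
    have e2 : ∑ S ∈ (V.erase r).powerset, (-1) ^ S.card * (MG g c Ω pr V (es pr r e S) /
        (1 + I) ^ (V.card - 1)) = (∑ S ∈ (V.erase r).powerset, (-1) ^ S.card *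
          MG g c Ω pr V (es pr r e S)) / (1 + I) ^ (V.card - 1) := by
      rw [Finset.sum_div]
      exact Finset.sum_congr rfl fun S _ => by ring
    rw [e2, h1, Finset.sum_div]
    refine Finset.sum_congr rfl fun q _ => ?_
    split_ifs
    · rw [Finset.prod_div_distrib, Finset.prod_const, Finset.card_erase_of_mem hr]
      ring
    · rw [zero_div]
  rw [e1]
  have c1 : Cg v (∑ q : RQ (DD pr V), (if q4 (pr r) (c * q.out) = 1 then
        (∏ i ∈ V.erase r, (df pr e i (c * q.out) / (1 + I))) * g (zq Ω (DD pr V) q.out) else 0))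
      (∑ q : RQ (DD pr V), (if q4 (pr r) (c * q.out) = 1 then
        (∏ i ∈ V.erase r, uu (dd pr i (c * q.out))) else 0)) := by
    refine Cg.sum _ fun q _ => ?_
    split_ifs with hq
    · have c2 := (Cg.prod (V.erase r) (f := fun i => df pr e i (c * q.out) / (1 + I))
        (g := fun i => uu (dd pr i (c * q.out))) (v := v)
        (fun i hi => df_cg h2 hp (he i hi) (c * q.out))).mul (zq_gc h hg hp hr hq)
      rwa [mul_one] at c2
    · exact Cg.refl (by rw [map_zero]; exact zero_le)
  have c3 := even_sumc (v := v) h2 hp (k := c) hr hc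
  have c4 : Cg v (∑ q : RQ (DD pr V), (if q4 (pr r) (c * q.out) = 1 then
        (∏ i ∈ V.erase r, uu (dd pr i (c * q.out))) else 0)) 0 := Cg.zero (lt_of_le_of_lt c3 h2)
  exact (c1.trans c4).lt

lemma Od_wtc (hp : PF pr) {V : Finset ι} {e : ι → ℕ} (hW : Wt pr V e % 2 = 1) :
    ∑ j ∈ Od V e, wt pr j = 1 := by
  have h1 : ∑ j ∈ Od V e, wt pr j = ((Wt pr V e : ℕ) : ZMod 2) := by
    unfold Od Wt
    rw [Finset.sum_filter, Nat.cast_sum]
    refine Finset.sum_congr rfl fun i _ => ?_
    rw [Nat.cast_mul, wt_wq hp]
    split_ifs with h5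
    · have h6 : ((e i : ℕ) : ZMod 2) = ((1 : ℕ) : ZMod 2) := by
        rw [ZMod.natCast_eq_natCast_iff]
        exact h5
      rw [h6]; norm_num
    · have h6 : ((e i : ℕ) : ZMod 2) = ((0 : ℕ) : ZMod 2) := by
        rw [ZMod.natCast_eq_natCast_iff]
        show e i % 2 = 0 % 2
        omega
      rw [h6]; norm_num
  rw [h1]
  have h6 : ((Wt pr V e : ℕ) : ZMod 2) = ((1 : ℕ) : ZMod 2) := by
    rw [ZMod.natCast_eq_natCast_iff]
    show Wt pr V e % 2 = 1 % 2
    omega
  rw [h6]; norm_num

lemma exists_oddc {V : Finset ι} {e : ι → ℕ} (hW : Wt pr V e % 2 = 1) :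
    ∃ r ∈ V, wq (pr r) % 2 = 1 := by
  by_contra hc
  push Not at hc
  have h1 : Even (Wt pr V e) := by
    unfold Wt
    rw [Nat.even_iff]
    refine Finset.sum_nat_mod _ _ _ ▸ ?_
    have : ∀ i ∈ V, e i * wq (pr i) % 2 = 0 := by
      intro i hi
      have h2 : wq (pr i) % 2 = 0 := by have := hc i hi; omega
      rw [Nat.mul_mod, h2, mul_zero, Nat.zero_mod]
    rw [Finset.sum_congr rfl this, Finset.sum_const_zero, Nat.zero_mod]
  rw [Nat.even_iff] at h1
  omega

include h2 h in
/-- the case of one prime -/
lemma MG_single (hp : PF pr) {w : ℕ} {g : ℂ → ℂ} (G : GF L w g)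
    (hg : ∀ x : ℂ, OT L x → Cg v (g x) 1) {c : ZI} (hcc : ∀ i, ¬ pr i ∣ c)
    {r : ι} {e : ι → ℕ} (hW : Wt pr {r} e % 4 = w)
    [Fintype (RQ (DD pr {r}))] : Cg v (MG g c Ω pr {r} e) 1 := by
  classical
  have hr : r ∈ ({r} : Finset ι) := Finset.mem_singleton_self r
  have hWo : Wt pr {r} e % 2 = 1 := by
    have := G.hw
    omega
  obtain ⟨r', hr', hw⟩ := exists_oddc hWo
  rw [Finset.mem_singleton] at hr'
  subst hr'
  have her : ({r'} : Finset ι).erase r' = ∅ := by simp
  have h1 := rel_exactc hp G hcc hr hw (e := e) (by rw [her]; simp) hW h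
  rw [her, Finset.powerset_empty, Finset.sum_singleton, es_empty, Finset.card_empty, pow_zero,
    one_mul] at h1
  simp only [Finset.prod_empty, one_mul] at h1
  rw [h1]
  have c1 : Cg v (∑ q : RQ (DD pr {r'}), (if q4 (pr r') (c * q.out) = 1 then
      g (zq Ω (DD pr {r'}) q.out) else 0))
      (∑ q : RQ (DD pr {r'}), (if q4 (pr r') (c * q.out) = 1 then 1 else 0)) := by
    refine Cg.sum _ fun q _ => ?_
    split_ifs with hq
    · exact zq_gc h hg hp hr hq
    · exact Cg.refl (by rw [map_zero]; exact zero_le)
  have hDr : DD pr {r'} = pr r' := by unfold DD; exact Finset.prod_singleton _ _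
  have h3 := orbit_sumc (D := DD pr {r'}) (dvd_DD hr) (hp.pp r') (hcc r') hw
    (G := fun a => if pr r' ∣ a then 0 else 1)
    (by
      intro a b hab
      have h4 : pr r' ∣ a - b := (dvd_DD hr).trans hab
      have h5 : pr r' ∣ a ↔ pr r' ∣ b := by
        constructor
        · intro h'; have := dvd_sub h' h4; rwa [sub_sub_cancel] at this
        · intro h'; have := dvd_add h4 h'; rwa [sub_add_cancel] at this
      simp only [h5])
    (by
      intro a
      have h5 : pr r' ∣ im1 * a ↔ pr r' ∣ a := qr_unit_mul (hp.pp r') im1_norm a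
      simp only [h5])
    (by
      intro a ha
      simp only [if_pos ha])
  have h4 : ∑ q : RQ (DD pr {r'}), (if q4 (pr r') (c * q.out) = 1 then
      (if pr r' ∣ q.out then (0 : ℂ) else 1) else 0) =
      ∑ q : RQ (DD pr {r'}), (if q4 (pr r') (c * q.out) = 1 then 1 else 0) := by
    refine Finset.sum_congr rfl fun q _ => ?_
    by_cases hq : q4 (pr r') (c * q.out) = 1
    · rw [if_pos hq, if_pos hq, if_neg]
      intro hd
      rw [q4_zero (hd.mul_left c)] at hq
      exact absurd hq (by decide)
    · rw [if_neg hq, if_neg hq]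
  have h5 : ∑ q : RQ (DD pr {r'}), (if pr r' ∣ q.out then (0 : ℂ) else 1) =
      (Fintype.card (RQ (DD pr {r'})) : ℂ) - 1 := by
    have h6 : ∀ q : RQ (DD pr {r'}), (if pr r' ∣ q.out then (0 : ℂ) else 1) =
        1 - (if q = 0 then 1 else 0) := by
      intro q
      have h7 : pr r' ∣ q.out ↔ q = 0 := by
        rw [← Ideal.mem_span_singleton, ← hDr, ← Ideal.Quotient.eq_zero_iff_mem,
          Ideal.Quotient.mk_out]
      by_cases hq : q = 0
      · rw [if_pos (h7.2 hq), if_pos hq, sub_self]
      · rw [if_neg (fun h' => hq (h7.1 h')), if_neg hq, sub_zero]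
    rw [Finset.sum_congr rfl fun q _ => h6 q, Finset.sum_sub_distrib, Finset.sum_ite_eq']
    simp
  have hcard : Fintype.card (RQ (DD pr {r'})) = nrm (pr r') := by
    rw [← Nat.card_eq_fintype_card, H385.H10.card_RQ, hDr]
  have hm := (hp.pp r').nrm_mod
  have h6 : (1 / 4 : ℂ) * ((nrm (pr r') : ℂ) - 1) = (wq (pr r') : ℂ) := by
    have h7 : nrm (pr r') = 4 * wq (pr r') + 1 := by unfold wq; omega
    rw [h7]; push_cast; ring
  rw [h4, h5, hcard, h6] at h3
  rw [← h3] at c1
  exact c1.trans (cg_nat_odd h2 hw)

include h2 h in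
/-- **the main congruence** -/
theorem MG_cg (hp : PF pr) {w : ℕ} {g : ℂ → ℂ} (G : GF L w g)
    (hg : ∀ x : ℂ, OT L x → Cg v (g x) 1) {c : ZI} (hcc : ∀ i, ¬ pr i ∣ c)
    (φ : Finset ι → (ι → ℕ) → ι → ℂ)
    (hφ1 : ∀ (V : Finset ι) (e : ι → ℕ) (i : ι), i ∈ V → e i = 0 → Wt pr V e % 4 = w →
      ∀ [Fintype (RQ (DD pr V))] [Fintype (RQ (DD pr (V.erase i)))],
      MG g c Ω pr V e = MG g c Ω pr (V.erase i) e * φ (V.erase i) e i)
    (hφ2 : ∀ (V : Finset ι) (e : ι → ℕ) (i : ι), i ∉ V → Wt pr V e % 4 = w →
      Cg v (φ V e i / (1 + I)) (uu (∑ u ∈ Od V e, em pr u i))) :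
    ∀ (V : Finset ι) (e : ι → ℕ), Wt pr V e % 4 = w →
    ∀ [Fintype (RQ (DD pr V))],
      Cg v (MG g c Ω pr V e / (1 + I) ^ (V.card - 1)) (uu (TQ pr V (Od V e))) := by
  classical
  intro V
  induction V using Finset.strongInduction with
  | H V ihV =>
    intro e hW i0
    have h1I : (1 + I : ℂ) ≠ 0 := one_I_ne
    have hodd : ∀ (U : Finset ι) (e' : ι → ℕ), Wt pr U e' % 4 = w → Wt pr U e' % 2 = 1 := by
      intro U e' hU
      have := G.hw
      omega
    -- a prime with odd weight
    obtain ⟨r, hr, hw⟩ := exists_oddc (hodd _ _ hW)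
    have hcard : 1 ≤ V.card := Finset.card_pos.2 ⟨r, hr⟩
    -- the inner induction
    suffices H : ∀ n : ℕ, ∀ e : ι → ℕ, ∑ i ∈ V.erase r, e i = n → Wt pr V e % 4 = w →
        Cg v (MG g c Ω pr V e / (1 + I) ^ (V.card - 1)) (uu (TQ pr V (Od V e))) from H _ e rfl hW
    clear hW e
    intro n
    induction n using Nat.strong_induction_on with
    | _ n ihn =>
      intro e hn hW
      by_cases hc1 : V.card = 1
      · -- one prime
        obtain ⟨a, ha⟩ := Finset.card_eq_one.1 hc1
        have har : a = r := by rw [ha, Finset.mem_singleton] at hr; exact hr.symm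
        subst har
        subst ha
        have c1 := MG_single h2 h hp G hg hcc hW
        have h5 := Od_wtc hp (hodd _ _ hW)
        have h6 : Od {a} e = {a} := by
          unfold Od at h5 ⊢
          by_cases h7 : e a % 2 = 1
          · rw [Finset.filter_singleton, if_pos h7]
          · rw [Finset.filter_singleton, if_neg h7, Finset.sum_empty] at h5
            exact absurd h5 (by decide)
        rw [h6, Finset.sum_singleton] at h5
        unfold TQ
        rw [h6, Finset.sdiff_self, Finset.prod_empty, mul_one, Ff.ell_single, h5, uu_one,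
          Finset.card_singleton, Nat.sub_self, pow_zero, div_one]
        exact c1
      · have hc2 : 2 ≤ V.card := by omega
        by_cases h0 : ∃ i ∈ V, e i = 0
        · -- a vanishing exponent
          obtain ⟨i, hi, hei⟩ := h0
          have hfin := H385.he1_finite (DD_ne hp (V.erase i))
          letI := Fintype.ofFinite (RQ (DD pr (V.erase i)))
          have hWe : Wt pr (V.erase i) e = Wt pr V e := by
            unfold Wt
            rw [← Finset.add_sum_erase V _ hi, hei, zero_mul, zero_add]
          have c1 := ihV (V.erase i) (Finset.erase_ssubset hi) e (by rw [hWe]; exact hW)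
          have c2 := hφ2 (V.erase i) e i (Finset.notMem_erase i V) (by rw [hWe]; exact hW)
          have c3 := c1.mul c2
          rw [← uu_mul] at c3
          have hOd : Od (V.erase i) e = Od V e := by
            unfold Od
            ext j
            rw [Finset.mem_filter, Finset.mem_filter, Finset.mem_erase]
            constructor
            · rintro ⟨⟨a1, a2⟩, a3⟩; exact ⟨a2, a3⟩
            · rintro ⟨a2, a3⟩
              refine ⟨⟨?_, a2⟩, a3⟩
              rintro rfl
              rw [hei] at a3
              exact absurd a3 (by norm_num)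
          have hiO : i ∉ Od V e := by
            unfold Od
            rw [Finset.mem_filter]
            rintro ⟨-, a3⟩
            rw [hei] at a3
            exact absurd a3 (by norm_num)
          have e1 : TQ pr (V.erase i) (Od (V.erase i) e) * ∑ u ∈ Od (V.erase i) e, em pr u i =
              TQ pr V (Od V e) := by
            unfold TQ
            rw [hOd, mul_assoc]
            congr 1
            have e2 : V \ Od V e = insert i ((V.erase i) \ Od V e) := by
              ext j
              rw [Finset.mem_insert, Finset.mem_sdiff, Finset.mem_sdiff, Finset.mem_erase]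
              constructor
              · rintro ⟨a1, a2⟩
                by_cases hji : j = i
                · exact Or.inl hji
                · exact Or.inr ⟨⟨hji, a1⟩, a2⟩
              · rintro (rfl | ⟨⟨a1, a2⟩, a3⟩)
                · exact ⟨hi, hiO⟩
                · exact ⟨a2, a3⟩
            rw [e2, Finset.prod_insert (by simp), mul_comm]
          rw [e1] at c3
          have e3 : MG g c Ω pr (V.erase i) e / (1 + I) ^ ((V.erase i).card - 1) *
              (φ (V.erase i) e i / (1 + I)) =
              MG g c Ω pr V e / (1 + I) ^ (V.card - 1) := by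
            rw [hφ1 V e i hi hei hW, Finset.card_erase_of_mem hi]
            have e4 : V.card - 1 = (V.card - 1 - 1) + 1 := by omega
            rw [e4, Nat.add_sub_cancel, pow_succ]
            field_simp
          rw [e3] at c3
          exact c3
        · -- all exponents are positive
          push Not at h0
          have he : ∀ i ∈ V.erase r, 1 ≤ e i := fun i hi =>
            Nat.one_le_iff_ne_zero.2 (h0 i (Finset.mem_of_mem_erase hi))
          set X : Finset ι → ℂ := fun S => MG g c Ω pr V (es pr r e S) / (1 + I) ^ (V.card - 1) with hX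
          set TS : Finset ι → ZMod 2 := fun S => TQ pr V (Od V (es pr r e S)) with hTS
          have hWS : ∀ S ⊆ V.erase r, Wt pr V (es pr r e S) % 4 = w := by
            intro S hS
            rw [es_Wt hr hw he hS, hW]
          have hIH : ∀ S ∈ (V.erase r).powerset.erase ∅, Cg v (X S) (uu (TS S)) := by
            intro S hS
            rw [Finset.mem_erase, Finset.mem_powerset] at hS
            refine ihn (∑ i ∈ V.erase r, es pr r e S i) ?_ (es pr r e S) rfl (hWS S hS.2)
            rw [← hn]
            obtain ⟨j, hj⟩ := Finset.nonempty_iff_ne_empty.2 hS.1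
            refine Finset.sum_lt_sum (fun i hi => ?_) ⟨j, hS.2 hj, ?_⟩
            · unfold es
              rw [if_neg (Finset.mem_erase.1 hi).1]
              split_ifs
              · omega
              · exact le_rfl
            · unfold es
              rw [if_neg (Finset.mem_erase.1 (hS.2 hj)).1, if_pos hj]
              have := he j (hS.2 hj)
              omega
          have hR := rel_cgc h2 h hp G hg hcc hr hw he hW hc2
          have hmem : (∅ : Finset ι) ∈ (V.erase r).powerset := Finset.empty_mem_powerset _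
          have c1 : Cg v (∑ S ∈ (V.erase r).powerset, (-1) ^ S.card * X S) 0 := Cg.zero hR
          have c2 : Cg v (∑ S ∈ (V.erase r).powerset.erase ∅, (-1) ^ S.card * X S)
              (∑ S ∈ (V.erase r).powerset.erase ∅, uu (TS S)) :=
            Cg.sum _ fun S hS => cg_sign h2 _ (hIH S hS)
          have c3 := (c1.sub c2)
          rw [← Finset.add_sum_erase _ _ hmem, add_sub_cancel_right, Finset.card_empty, pow_zero,
            one_mul, zero_sub] at c3
          -- the sum of the target values
          have htot : ∑ S ∈ (V.erase r).powerset, TS S = 0 := by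
            have h5 := Ff.sum_reindex (w := wt pr) hr (by
                rw [wt_wq hp]
                have h6 : ((wq (pr r) : ℕ) : ZMod 2) = ((1 : ℕ) : ZMod 2) := by
                  rw [ZMod.natCast_eq_natCast_iff]
                  exact hw
                rw [h6]; norm_num) (fun O => TQ pr V O) (fun S => Od V (es pr r e S)) (Od V e)
              (fun S _ => Finset.filter_subset _ _)
              (fun S hS => Od_wtc hp (hodd _ _ (hWS S hS)))
              (fun S hS j hj => by
                have hjV := Finset.mem_of_mem_erase hj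
                have hjr := (Finset.mem_erase.1 hj).1
                have hej := he j hj
                unfold Od
                rw [Finset.mem_filter, Finset.mem_filter]
                unfold es
                rw [if_neg hjr]
                by_cases hjS : j ∈ S
                · simp only [hjS, hjV, true_and, if_true, iff_true]
                  omega
                · simp only [hjS, hjV, true_and, if_false, iff_false, not_not])
            rw [hTS]
            rw [h5]
            exact Ff.sum_ell_one (wt pr) (em pr) (em_self hp) (em_symm hp) hc2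
          rw [← Finset.add_sum_erase _ _ hmem] at htot
          have e5 : ∑ S ∈ (V.erase r).powerset.erase ∅, TS S = TS ∅ := by
            have : TS ∅ + TS ∅ = 0 := CharTwo.add_self_eq_zero _
            linear_combination htot - this
          have c4 : Cg v (-∑ S ∈ (V.erase r).powerset.erase ∅, uu (TS S)) (uu (TS ∅)) := by
            have c5 := (uu_sum h2 ((V.erase r).powerset.erase ∅) TS).symm
            rw [e5] at c5
            exact c5.neg.trans (uu_neg' h2 _)
          have c6 := c3.trans c4
          rw [hX, hTS] at c6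
          simp only [es_empty] at c6
          exact c6

end val

/-- **S_MG** -/
theorem s_MG : S_MG := by
  intro L Ω h Γ _ v h2 ι _ _ pr hp w hw c hcc g hper him hg φ hφ1 hφ2 V e hW _
  exact MG_cg h2 h hp ⟨hw, hper, him⟩ hg hcc φ hφ1 hφ2 V e hW

end Pool.Agent.L7h3.QD
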