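import Pool.Agent.L7h3.QD.Stm

/-!
# Project QD (helper3): quartic reciprocity with both signs
-/

set_option autoImplicit false
set_option linter.unusedSectionVars false
set_option linter.unusedVariables false

namespace Pool.Agent.L7h3.QD

open Pool.Agent.Y699
open Pool.Agent.TH936.CM
open Pool.Agent.L7h3.MQ (DE TE Fac)
open H385 (ZI RQ im1 nrm)
open Pool.Agent.H304R2.EC.A1 (prim norm_def')

lemma sd_eq_pow {z : ZI} (hz : PP z) : sd z = (-1) ^ (nrm z / 4) := by
  obtain ⟨a1, a2⟩ := hz.prm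
  have h0 : (nrm z : ℤ) = z.re * z.re + z.im * z.im := by rw [nrm_cast, norm_def']; ring
  obtain ⟨m, hm⟩ : ∃ m, z.re = 2 * m + 1 := ⟨z.re / 2, by omega⟩
  obtain ⟨y, hy⟩ : ∃ y, z.im = 2 * y := ⟨z.im / 2, by omega⟩
  have h1 : (nrm z : ℤ) = 4 * (m * m + m + y * y) + 1 := by rw [h0, hm, hy]; ring
  have h4 : (m * m + m) % 2 = 0 := by
    have : m * m + m = m * (m + 1) := by ring
    rw [this]
    exact Int.even_iff.1 (Int.even_mul_succ_self m)
  unfold sd
  by_cases h : z.im % 4 = 0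
  · rw [if_pos h]
    obtain ⟨t, ht⟩ : ∃ t, y = 2 * t := ⟨y / 2, by omega⟩
    have h5 : y * y = 2 * (2 * (t * t)) := by rw [ht]; ring
    have h6 : Even (nrm z / 4) := by
      rw [Nat.even_iff]
      omega
    rw [h6.neg_one_pow]
  · rw [if_neg h]
    obtain ⟨t, ht⟩ : ∃ t, y = 2 * t + 1 := ⟨y / 2, by omega⟩
    have h5 : y * y = 2 * (2 * (t * t + t)) + 1 := by rw [ht]; ring
    have h6 : Odd (nrm z / 4) := by
      rw [Nat.odd_iff]
      omega
    rw [h6.neg_one_pow]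

/-- **S_REC** -/
theorem s_REC : S_REC := by
  intro J ι _ pr hp V e hW z hz hzD
  have h1 := Pool.Agent.L7h3.MQ.recE J hp hW hz hzD
  refine ⟨h1, ?_⟩
  have e1 : DE pr V e = (-1) * (-(DE pr V e)) := by ring
  rw [e1, q4_mul hz, h1, q4_neg_one hz, sd_eq_pow hz]

end Pool.Agent.L7h3.QD
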