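import Pool.Agent.L7h3.QD.Asm
import Pool.Agent.L7h3.QD.Mgp
import Pool.Agent.L7h3.QD.Rec
import Pool.Agent.L7h97.QD.DEN5
import Pool.Agent.L7h23.QD.Rsd
import Pool.Agent.L7h23.QD.Div
import Pool.Agent.L7h23.QD.Lim
import Pool.Agent.L7h23.QD.Erd
import Pool.Agent.L7h93.QD.Era
import Pool.Agent.L7h93.QD.Fin
import Pool.Agent.L7h76.QD.UN
import Pool.Agent.L7h76.QD.QPT
import Pool.Agent.L7h65.QD.Sq
import Pool.Agent.L7h65.QD.Base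
import Pool.Agent.L7h32.QD.HC
import Pool.Agent.L7h32.QD.LF
import Pool.Agent.L7h32.QD.LHD

/-!
# Project QD: all the parts
-/

set_option autoImplicit false

namespace Pool.Agent.L7h3.QD

theorem t_LIM : S_LIM :=
  Pool.Agent.L7h23.QD.t_LIM (Pool.Agent.L7h23.QD.t_DIV Pool.Agent.L7h76.QD.t_QPT)
    Pool.Agent.L7h23.QD.t_RSD

/-- all the parts: helper23 (`LIM`, `ERD`, `PHD`), helper32 (`HCA`, `HCD`, `LHD`, `LF`), helper65 (`BASE`,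
`SQ`), helper76 (`UN`, `QPT`), helper93 (`ERA`, `LHA`, `FIN`), helper3 (`MG`, `REC`) -/
theorem parts : Parts where
  mg := s_MG
  un := Pool.Agent.L7h76.QD.t_UN
  qpt := Pool.Agent.L7h76.QD.t_QPT
  lim := t_LIM
  erd := Pool.Agent.L7h23.QD.t_ERD t_LIM
  phd := Pool.Agent.L7h23.QD.t_PHD
  lhd := Pool.Agent.L7h32.QD.t_LHD Pool.Agent.L7h32.QD.t_HCD
  hcd := Pool.Agent.L7h32.QD.t_HCD
  era := Pool.Agent.L7h93.QD.t_ERA
  lha := Pool.Agent.L7h93.QD.t_LHA Pool.Agent.L7h32.QD.t_HCA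
  hca := Pool.Agent.L7h32.QD.t_HCA
  lf := Pool.Agent.L7h32.QD.t_LF
  rcp := s_REC
  fin := Pool.Agent.L7h93.QD.t_FIN
  base := Pool.Agent.L7h65.QD.t_BASE Pool.Agent.L7h32.QD.t_LF
  sq := Pool.Agent.L7h65.QD.t_SQ Pool.Agent.L7h32.QD.t_LF

end Pool.Agent.L7h3.QD
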