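import Pool.Agent.L7h3.QD.Cls

/-!
# The curves over `ℚ(i)`, from the statements of the parts
-/

set_option autoImplicit false
set_option linter.unusedSectionVars false

open NumberField IsDedekindDomain

namespace Pool.Agent.L7h3.QD

open scoped Classical
open Pool.Agent.Y699
open Pool.Agent.L7h3.MQ (DE TE Fac DE_prim DE_ne TE_ne DE_comp DE_eq norm_DE16 sol_finite)
open Pool.Agent.L7h3.MR
open H385 (ZI RQ im1 nrm)
open Pool.Agent.W164.RC (tc_mul tc_star two2 prim_iff_dvd unit_norm unit_cases Ip Ip_spec)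
open Pool.Agent.H304R2.EC.A1 (prim prim_mul prim_cancel prim_one prim_norm_odd prim_star eq_one_of_prim
  norm_def' re_mul' im_mul' eq_of_dvd prim_ne_zero exists_prim)
open Pool.Agent.H304R3.HK (tc HC LH)
open Pool.Agent.Y715.Z (em0 em0_ne)

variable {K : Type} [Field K] [NumberField K] (e : ZI ≃+* 𝓞 K)

variable {ι : Type} [Fintype ι] [DecidableEq ι] {pr : ι → ZI} {V O : Finset ι} {ex : ι → ℕ}

/-- the points -/
theorem pts_class (hFIN : S_FIN) (H : Da pr V O ex) :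
    Finite (Pool.Agent.Y715.Z.q4 (em0 e (DE pr V ex))).toAffine.Point ∧
    Finite (Pool.Agent.Y715.Z.q4 (-em0 e (DE pr V ex))).toAffine.Point := by
  have hne : em0 e (DE pr V ex) ≠ 0 := em0_ne e (DE_ne H.pf V ex)
  have hDE := DE_eqR (pr := pr) V ex
  rw [H.od] at hDE
  have hT : ∀ ρ : ZI, Prime ρ → ρ ∣ TE pr V ex → ρ ∣ DD pr O ∨ ∀ x : ZI, ¬ ρ ∣ x ^ 2 - DD pr O := by
    intro ρ hρ h
    unfold TE at h
    obtain ⟨i, hi, h1⟩ := (hρ.dvd_finsetProd_iff _).1 h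
    have h2 : ρ ∣ pr i := hρ.dvd_of_dvd_pow h1
    by_cases hiO : i ∈ O
    · exact Or.inl (h2.trans (dvd_DD hiO))
    · right
      intro w hw
      have h3 : Associated ρ (pr i) := hρ.associated_of_dvd (H.pf.pp i).pr h2
      exact H.non i (Finset.mem_sdiff.2 ⟨hi, hiO⟩) w (h3.symm.dvd.trans hw)
  have hj : (em0 e im1 : K) ^ 2 = -1 := by
    rw [← map_pow]
    have : (im1 : ZI) ^ 2 = -1 := by decide
    rw [this, map_neg, map_one]
  let _ : Algebra ZI K := ((algebraMap (𝓞 K) K).comp (e : ZI →+* 𝓞 K)).toAlgebra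
  have _ : IsFractionRing ZI K := IsFractionRing.of_ringEquiv_left e (fun _ => rfl)
  constructor
  · refine hFIN K _ hj _ hne ?_
    intro x y hy hxy
    rw [hDE] at hxy ⊢
    exact square_classR (F := K) H.pf H.wt1 H.ker (TE_ne H.pf V ex) hT hy hxy
  · refine hFIN K _ hj _ (neg_ne_zero.2 hne) ?_
    intro x y hy hxy
    have e1 : (-em0 e (DE pr V ex) : K) = algebraMap ZI K (-(DD pr O * TE pr V ex ^ 2)) := by
      rw [hDE, map_neg]
      rfl
    rw [e1] at hxy ⊢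
    exact sqc (F := K) H.pf H.wt1 H.ker (TE_ne H.pf V ex) hT hy hxy

lemma bad_primes (hp : PF pr) (h4 : ∀ i ∈ V, ex i % 4 ≠ 0) {z : ZI} (hz : PP z) (h : z ∣ DE pr V ex) :
    ∃ i ∈ V, z = pr i ∧ ∃ m : ℕ, m % 4 ≠ 0 ∧ z ^ m ∣ DE pr V ex ∧ ¬ z ^ (m + 1) ∣ DE pr V ex := by
  obtain ⟨i, hi, hzi⟩ : ∃ i ∈ V, z = pr i := by
    unfold DE at h
    obtain ⟨i, hi, hzi⟩ := (hz.pr.dvd_finsetProd_iff _).1 h
    exact ⟨i, hi, hz.eq_of_dvd (hp.pp i) (hz.pr.dvd_of_dvd_pow hzi)⟩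
  have h3 : DE pr V ex = z ^ ex i * DE pr (V.erase i) ex := by
    unfold DE
    rw [hzi]
    exact (Finset.mul_prod_erase V (fun i => pr i ^ ex i) hi).symm
  have h4' : ¬ z ∣ DE pr (V.erase i) ex := by
    intro h
    unfold DE at h
    obtain ⟨j, hj, hzj⟩ := (hz.pr.dvd_finsetProd_iff _).1 h
    have h5 := hz.eq_of_dvd (hp.pp j) (hz.pr.dvd_of_dvd_pow hzj)
    rw [hzi] at h5
    exact (Finset.mem_erase.1 hj).1 (hp.inj h5).symm
  refine ⟨i, hi, hzi, ex i, h4 i hi, ⟨_, h3⟩, ?_⟩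
  rintro ⟨c, hc⟩
  apply h4'
  refine ⟨c, ?_⟩
  apply mul_left_cancel₀ (pow_ne_zero (ex i) hz.ne)
  rw [← h3, hc]
  ring

lemma good_primes (h4 : ∀ i ∈ V, ex i % 4 ≠ 0) {z : ZI} (h : ¬ z ∣ DE pr V ex) : ∀ i ∈ V, z ≠ pr i := by
  intro i hi h0
  apply h
  rw [h0]
  unfold DE
  exact (dvd_pow_self (pr i) (by have := h4 i hi; omega)).trans
    (Finset.dvd_prod_of_mem (fun i => pr i ^ ex i) hi)

/-- positive sign -/
theorem col_pos (hMG : S_MG) (hUN : S_UN) (hERA : S_ERA) (hLHA : S_LHA) (hHCA : S_HCA) (hLF : S_LF)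
    (hREC : S_REC) (H : Da pr V O ex) (h4 : ∀ i ∈ V, ex i % 4 ≠ 0) : CoL (em0 e (DE pr V ex)) := by
  have hW := H.odd
  have hcase : Wt pr V ex % 4 = 1 ∨ Wt pr V ex % 4 = 3 := by omega
  rcases hcase with h1 | h3
  · refine hLF K e _ _ (hHCA ι pr H.pf V ex h1 h4) (LH_a hMG hUN hERA hLHA H h1 h4) (DE pr V ex)
      (DE_ne H.pf V ex) ?_ ?_
    · intro z hz hzd
      rw [(hREC (JJ_of e) ι pr H.pf V ex hW z hz (good_primes h4 hzd)).1]
      rfl
    · intro z hz hzd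
      obtain ⟨i, hi, hzi, hm⟩ := bad_primes H.pf h4 hz hzd
      refine ⟨?_, hm⟩
      rw [XXa_apply, c4_zero ex hi (by rw [hzi]), tc_zero, map_zero]
  · refine hLF K e _ _ (XX4_HC H.pf h3 h4) (LH_neR H.pf h4 h3 (by rw [H.od]; exact H.ker) H.res)
      (DE pr V ex) (DE_ne H.pf V ex) ?_ ?_
    · intro z hz hzd
      rw [(hREC (JJ_of e) ι pr H.pf V ex hW z hz (good_primes h4 hzd)).1]
      exact XX4_prim H.pf V ex hz.prm
    · intro z hz hzd
      obtain ⟨i, hi, hzi, hm⟩ := bad_primes H.pf h4 hz hzd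
      refine ⟨?_, hm⟩
      rw [XX4_prim H.pf V ex hz.prm, c4_zero ex hi (by rw [hzi]), tc_zero, map_zero]

/-- negative sign -/
theorem col_neg (hMG : S_MG) (hUN : S_UN) (hQPT : S_QPT) (hLIM : S_LIM) (hERD : S_ERD) (hPHD : S_PHD)
    (hLHD : S_LHD) (hHCD : S_HCD) (hLF : S_LF) (hREC : S_REC) (H : Da pr V O ex)
    (h4 : ∀ i ∈ V, ex i % 4 ≠ 0) : CoL (-em0 e (DE pr V ex)) := by
  have hW := H.odd
  have e1 : (-em0 e (DE pr V ex) : K) = ((e (-(DE pr V ex)) : 𝓞 K) : K) := by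
    rw [map_neg]
    rfl
  rw [e1]
  refine hLF K e _ _ (hHCD ι pr H.pf V ex h4) (LH_d hMG hUN hQPT hLIM hERD hPHD hLHD H h4)
    (-(DE pr V ex)) (neg_ne_zero.2 (DE_ne H.pf V ex)) ?_ ?_
  · intro z hz hzd
    rw [dvd_neg] at hzd
    rw [neg_neg, (hREC (JJ_of e) ι pr H.pf V ex hW z hz (good_primes h4 hzd)).2, XXd_apply,
      un_prim hz.prm, tc_one, one_mul, one_mul, tc_mul]
  · intro z hz hzd
    rw [dvd_neg] at hzd
    obtain ⟨i, hi, hzi, m, h1, h2, h3⟩ := bad_primes H.pf h4 hz hzd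
    refine ⟨?_, m, h1, h2.neg_right, fun h => h3 ((dvd_neg).1 h)⟩
    rw [XXd_apply, un_prim hz.prm, one_mul, c4_zero ex hi (by rw [hzi]), tc_zero, mul_zero, map_zero,
      mul_zero]

/-- the reduction to exponents not divisible by four -/
lemma Da.red (H : Da pr V O ex) : ∃ (V' : Finset ι) (T : ZI), Da pr V' O ex ∧ (∀ i ∈ V', ex i % 4 ≠ 0) ∧
    T ≠ 0 ∧ DE pr V ex = DE pr V' ex * T ^ 4 := by
  have hp := H.pf
  set V' := V.filter (fun i => ex i % 4 ≠ 0) with hV'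
  have hsub : V' ⊆ V := Finset.filter_subset _ _
  have hOV : O ⊆ V' := by
    intro i hi
    rw [hV', Finset.mem_filter]
    have := (H.par i (H.sub hi)).2 hi
    exact ⟨H.sub hi, by omega⟩
  refine ⟨V', ∏ i ∈ V.filter (fun i => ¬ ex i % 4 ≠ 0), pr i ^ (ex i / 4), ⟨hp, hOV, H.wt1, H.ker,
    fun i hi => H.non i (Finset.mem_sdiff.2 ⟨hsub (Finset.mem_sdiff.1 hi).1, (Finset.mem_sdiff.1 hi).2⟩),
    fun i hi => H.par i (hsub hi)⟩, fun i hi => (Finset.mem_filter.1 hi).2,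
    Finset.prod_ne_zero_iff.2 fun i _ => pow_ne_zero _ (hp.pp i).ne, ?_⟩
  have h1 : (∏ i ∈ V.filter (fun i => ¬ ex i % 4 ≠ 0), pr i ^ (ex i / 4)) ^ 4 =
      ∏ i ∈ V.filter (fun i => ¬ ex i % 4 ≠ 0), pr i ^ ex i := by
    rw [← Finset.prod_pow]
    refine Finset.prod_congr rfl fun i hi => ?_
    have h3 := (Finset.mem_filter.1 hi).2
    rw [← pow_mul]
    congr 1
    omega
  rw [h1]
  unfold DE
  rw [hV', Finset.prod_filter_mul_prod_filter_not]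

/-- all the parts -/
structure Parts : Prop where
  mg : S_MG
  un : S_UN
  qpt : S_QPT
  lim : S_LIM
  erd : S_ERD
  phd : S_PHD
  lhd : S_LHD
  hcd : S_HCD
  era : S_ERA
  lha : S_LHA
  hca : S_HCA
  lf : S_LF
  rcp : S_REC
  fin : S_FIN
  base : S_BASE
  sq : S_SQ

theorem co2_pos (P : Parts) (H : Da pr V O ex) : Co2 (em0 e (DE pr V ex)) := by
  obtain ⟨V', T, H', h4, hT, hDE⟩ := H.red
  have h1 : Co2 (em0 e (DE pr V' ex)) := ⟨(pts_class e P.fin H').1,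
    col_pos e P.mg P.un P.era P.lha P.hca P.lf P.rcp H' h4⟩
  rw [hDE, map_mul, map_pow]
  exact co2_scale (em0_ne e (DE_ne H.pf V' ex)) (em0_ne e hT) h1

theorem co2_neg (P : Parts) (H : Da pr V O ex) : Co2 (-em0 e (DE pr V ex)) := by
  obtain ⟨V', T, H', h4, hT, hDE⟩ := H.red
  have h1 : Co2 (-em0 e (DE pr V' ex)) := ⟨(pts_class e P.fin H').2,
    col_neg e P.mg P.un P.qpt P.lim P.erd P.phd P.lhd P.hcd P.lf P.rcp H' h4⟩
  have e1 : (-em0 e (DE pr V ex) : K) = -em0 e (DE pr V' ex) * (em0 e T) ^ 4 := by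
    rw [hDE, map_mul, map_pow]; ring
  rw [e1]
  exact co2_scale (neg_ne_zero.2 (em0_ne e (DE_ne H.pf V' ex))) (em0_ne e hT) h1

theorem co2_sq (P : Parts) (H : Da pr V O ex) : Co2 (-(em0 e (DE pr V ex)) ^ 2) := by
  have hO : O.Nonempty := by
    by_contra hc
    rw [Finset.not_nonempty_iff_eq_empty] at hc
    have := H.wt1
    rw [hc, Finset.sum_empty] at this
    exact absurd this (by decide)
  have hDE := DE_eqR (pr := pr) V ex
  rw [H.od] at hDE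
  have h1 : Co2 (-(em0 e (DD pr O) : K) ^ 2) := P.sq K e ι pr H.pf O hO H.wt1 H.ker
  have e1 : (-(em0 e (DE pr V ex)) ^ 2 : K) = -(em0 e (DD pr O)) ^ 2 * (em0 e (TE pr V ex)) ^ 4 := by
    rw [hDE, map_mul, map_pow]; ring
  rw [e1]
  exact co2_scale (neg_ne_zero.2 (pow_ne_zero 2 (em0_ne e (DD_ne H.pf O))))
    (em0_ne e (TE_ne H.pf V ex)) h1

end Pool.Agent.L7h3.QD
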