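import Pool.Agent.L7h3.QD.Fld

/-!
# Non-vanishing and finiteness over `ℚ(i)` for the three classes, from the statements of the parts
-/

set_option autoImplicit false
set_option linter.unusedSectionVars false

open NumberField IsDedekindDomain
open Filter Complex
open scoped Topology PeriodPair

namespace Pool.Agent.L7h3.QD

open scoped Classical
open Pool.Agent.Y699
open Pool.Agent.TH936.CM
open Pool.Agent.L7h3.MQ (DE TE Fac DE_prim DE_ne DE_comp DE_eq norm_DE16)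
open Pool.Agent.L7h3.MR
open H385 (ZI RQ im1 nrm)
open Pool.Agent.W164.RC (tc_mul tc_star two2 prim_iff_dvd unit_norm unit_cases Ip Ip_spec)
open Pool.Agent.H304R2.EC.A1 (prim prim_mul prim_cancel prim_one prim_norm_odd prim_star eq_one_of_prim
  norm_def' re_mul' im_mul' eq_of_dvd prim_ne_zero exists_prim)
open Pool.Agent.H304R3.HK (tc HC LH)

/-! ### the classes of the abscissas for both signs -/

lemma sqc {F : Type} [Field F] [Algebra ZI F] [IsFractionRing ZI F]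
    {ι : Type} [Fintype ι] [DecidableEq ι] {pr : ι → ZI} (hp : PF pr) {V : Finset ι}
    (hw : ∑ i ∈ V, wt pr i = 1)
    (hker : ∀ z : ι → ZMod 2, (∀ v ∈ V, ∑ u ∈ V, em pr u v * (z u + z v) = 0) →
      ∀ u ∈ V, ∀ v ∈ V, z u = z v)
    {T : ZI} (hT0 : T ≠ 0)
    (hT : ∀ ρ : ZI, Prime ρ → ρ ∣ T → ρ ∣ DD pr V ∨ ∀ x : ZI, ¬ ρ ∣ x ^ 2 - DD pr V)
    {x y : F} (hy : y ≠ 0) (hxy : y ^ 2 = x ^ 3 + algebraMap ZI F (-(DD pr V * T ^ 2)) * x) :
    ∃ w : F, x = w ^ 2 ∨ x = algebraMap ZI F (-(DD pr V * T ^ 2)) * w ^ 2 := by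
  have hi : (im1 : ZI) ^ 2 = -1 := by decide
  have e1 : -(DD pr V * T ^ 2) = DD pr V * (im1 * T) ^ 2 := by
    linear_combination (-(DD pr V * T ^ 2)) * hi
  have hu : IsUnit (im1 : ZI) := IsUnit.of_mul_eq_one (-im1) (by decide : im1 * -im1 = 1)
  rw [e1] at hxy ⊢
  refine square_classR hp hw hker (mul_ne_zero hu.ne_zero hT0) ?_ hy hxy
  intro ρ hρ h
  exact hT ρ hρ ((hu.dvd_mul_left).1 h)

variable {ι : Type} [DecidableEq ι] {pr : ι → ZI}

/-- the data: `O` the primes with odd exponents, the other primes of `V` have even exponents and `DD pr O`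
is not a square modulo these -/
structure Da (pr : ι → ZI) (V O : Finset ι) (e : ι → ℕ) : Prop where
  pf : PF pr
  sub : O ⊆ V
  wt1 : ∑ i ∈ O, wt pr i = 1
  ker : ∀ z : ι → ZMod 2, (∀ v ∈ O, ∑ u ∈ O, em pr u v * (z u + z v) = 0) →
      ∀ u ∈ O, ∀ v ∈ O, z u = z v
  non : ∀ i ∈ V \ O, ∀ x : ZI, ¬ pr i ∣ x ^ 2 - DD pr O
  par : ∀ i ∈ V, e i % 2 = 1 ↔ i ∈ O

section

variable [Fintype ι] {V O : Finset ι} {e : ι → ℕ}

lemma Da.od (H : Da pr V O e) : Od V e = O := by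
  ext i
  unfold Od
  rw [Finset.mem_filter]
  exact ⟨fun h' => (H.par i h'.1).1 h'.2, fun h' => ⟨H.sub h', (H.par i (H.sub h')).2 h'⟩⟩

lemma Da.odd (H : Da pr V O e) : Wt pr V e % 2 = 1 := by
  have h1 : ∑ j ∈ Od V e, wt pr j = ((Wt pr V e : ℕ) : ZMod 2) := by
    unfold Od Wt
    rw [Finset.sum_filter, Nat.cast_sum]
    refine Finset.sum_congr rfl fun i _ => ?_
    rw [Nat.cast_mul, wt_wq H.pf]
    split_ifs with h5
    · have h6 : ((e i : ℕ) : ZMod 2) = ((1 : ℕ) : ZMod 2) := by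
        rw [ZMod.natCast_eq_natCast_iff]
        exact h5
      rw [h6]; norm_num
    · have h6 : ((e i : ℕ) : ZMod 2) = ((0 : ℕ) : ZMod 2) := by
        rw [ZMod.natCast_eq_natCast_iff]
        show e i % 2 = 0 % 2
        omega
      rw [h6]; norm_num
  rw [H.od, H.wt1] at h1
  have h2 : ((Wt pr V e : ℕ) : ZMod 2) = ((1 : ℕ) : ZMod 2) := by rw [← h1]; norm_num
  rw [ZMod.natCast_eq_natCast_iff] at h2
  exact h2

lemma Da.res (H : Da pr V O e) : ∀ i ∈ V \ Od V e, ∑ u ∈ Od V e, em pr u i = 1 := by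
  intro i hi
  rw [H.od] at hi ⊢
  have hiO : i ∉ O := (Finset.mem_sdiff.1 hi).2
  have h1 : qr (pr i) (DD pr O) = -1 := by
    unfold qr
    rw [if_neg, if_neg]
    · rintro ⟨b, hb⟩
      apply H.non i hi b
      have e1 : b ^ 2 - DD pr O = -(DD pr O - b ^ 2) := by ring
      rw [e1, dvd_neg]
      exact hb
    · exact Pool.Agent.L7h3.MQ.DD_dvd H.pf hiO
  rw [qr_DD_sg H.pf O hiO] at h1
  have hsg : ∀ a : ZMod 2, sg a = -1 → a = 1 := by decide
  exact hsg _ h1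

lemma Da.nonempty (H : Da pr V O e) : V.Nonempty := by
  by_contra hc
  rw [Finset.not_nonempty_iff_eq_empty] at hc
  have := H.odd
  rw [hc] at this
  simp [Wt] at this

/-- the values of a family are not zero -/
lemma ne_of_cg (hMG : S_MG) (H : Da pr V O e) {L : PeriodPair} {Ω : ℂ} (hGL : GLat L Ω)
    {w : ℕ} (hw : w = 1 ∨ w = 3) (hW : Wt pr V e % 4 = w) {c : ZI} (hc : ∀ i, ¬ pr i ∣ c) {g : ℂ → ℂ}
    (h1 : ∀ x y : ℂ, x - y ∈ L.lattice → g x = g y)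
    (h2 : ∀ x : ℂ, g (I * x) = (if w = 1 then -I else I) * g x)
    (h3 : ∀ (Γ : Type) [LinearOrderedCommGroupWithZero Γ] (v : Valuation ℂ Γ), v 2 < 1 →
      ∀ x : ℂ, OT L x → Cg v (g x) 1)
    (φ : Finset ι → (ι → ℕ) → ι → ℂ)
    (h4 : ∀ (V : Finset ι) (e : ι → ℕ) (i : ι), i ∈ V → e i = 0 → Wt pr V e % 4 = w →
      ∀ [Fintype (RQ (DD pr V))] [Fintype (RQ (DD pr (V.erase i)))],
      MG g c Ω pr V e = MG g c Ω pr (V.erase i) e * φ (V.erase i) e i)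
    (h5 : ∀ (Γ : Type) [LinearOrderedCommGroupWithZero Γ] (v : Valuation ℂ Γ), v 2 < 1 →
      ∀ (V : Finset ι) (e : ι → ℕ) (i : ι), i ∉ V → Wt pr V e % 4 = w →
      Cg v (φ V e i / (1 + I)) (uu (∑ u ∈ Od V e, em pr u i))) [Fintype (RQ (DD pr V))] :
    MG g c Ω pr V e ≠ 0 := by
  obtain ⟨B, hB⟩ := exists_val
  have c1 := hMG L Ω hGL _ B.valuation hB ι pr H.pf w hw c hc g h1 h2 (h3 _ B.valuation hB) φ h4
    (h5 _ B.valuation hB) V e hW
  have hTT : TQ pr V (Od V e) = 1 := by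
    unfold TQ
    rw [Finset.prod_eq_one H.res, mul_one,
      Ff.ell_one (wt pr) (em pr) (em_self H.pf) (em_symm H.pf) (by rw [H.od]; exact H.ker), H.od]
    exact H.wt1
  rw [hTT, uu_one] at c1
  intro h0
  rw [h0, zero_div] at c1
  have := c1.s
  rw [zero_sub, Valuation.map_neg, map_one] at this
  exact absurd this (lt_irrefl _)

lemma ga_per (L : PeriodPair) {x y : ℂ} (h : x - y ∈ L.lattice) : ga L x = ga L y := by
  unfold ga
  rw [wp_per L h, wp'_per L h]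

lemma ga_I {L : PeriodPair} {Ω : ℂ} (hL : IsLat L RG Ω) (x : ℂ) : ga L (I * x) = -I * ga L x := by
  unfold ga
  rw [wp_I hL, wp'_I hL]
  by_cases h : ℘[L] x = 0
  · rw [h]; simp
  · field_simp

lemma gd_per (L : PeriodPair) (κ : ℂ) (w : ℕ) {x y : ℂ} (h : x - y ∈ L.lattice) :
    gd L κ w x = gd L κ w y := by
  unfold gd qp
  rw [wp_per L h, wp'_per L h]

lemma gd_I {L : PeriodPair} {Ω : ℂ} (hL : IsLat L RG Ω) (κ : ℂ) {w : ℕ} (hw : w = 1 ∨ w = 3) (x : ℂ) :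
    gd L κ w (I * x) = (if w = 1 then -I else I) * gd L κ w x := by
  unfold gd qp
  rw [wp_I hL, wp'_I hL]
  rcases hw with rfl | rfl
  · rw [if_pos rfl, if_pos rfl, if_pos rfl]
    have e1 : (-℘[L] x) ^ 4 - 6 * (-℘[L] x) ^ 2 + 1 = ℘[L] x ^ 4 - 6 * ℘[L] x ^ 2 + 1 := by ring
    rw [e1]
    ring
  · rw [if_neg (by norm_num), if_neg (by norm_num), if_neg (by norm_num)]
    have e1 : (-℘[L] x) ^ 4 - 6 * (-℘[L] x) ^ 2 + 1 = ℘[L] x ^ 4 - 6 * ℘[L] x ^ 2 + 1 := by ring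
    rw [e1]
    ring

end

section classes

variable [Fintype ι] {V O : Finset ι} {e : ι → ℕ}

lemma pr_ndvd_four (hp : PF pr) (i : ι) : ¬ pr i ∣ 4 := by
  intro h
  have e1 : (4 : ZI) = 2 * 2 := by decide
  rw [e1] at h
  rcases (hp.pp i).pr.dvd_or_dvd h with h | h <;> exact not_dvd_two (hp.pp i) h

/-- class (a) -/
theorem LH_a (hMG : S_MG) (hUN : S_UN) (hERA : S_ERA) (hLHA : S_LHA) (H : Da pr V O e)
    (hW : Wt pr V e % 4 = 1) (h4 : ∀ i ∈ V, e i % 4 ≠ 0) : LH (XXa H.pf V e) (1 / 2) ≠ 0 := by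
  obtain ⟨L, Ω, hGL⟩ := exists_lat
  have hfin := H385.he1_finite (DD_ne H.pf V)
  let _ := Fintype.ofFinite (RQ (DD pr V))
  intro h0
  refine ne_of_cg hMG H hGL (Or.inl rfl) hW (c := 1) (g := ga L) ?_ (fun x y h => ga_per L h) ?_ ?_
    (fun V e i => tc (pr i) - tc (c4 pr V e (pr i))) ?_ ?_ (hLHA L Ω hGL ι pr H.pf V e hW h4 h0)
  · intro i h
    exact (H.pf.pp i).pr.not_isUnit (isUnit_of_dvd_one h)
  · intro x
    rw [if_pos rfl]
    exact ga_I hGL.lat x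
  · intro Γ _ v hv x hx
    exact (hUN L Ω hGL Γ v hv x hx).1
  · intro V e i hi he hW
    exact hERA L Ω hGL ι pr H.pf V e i hi he hW
  · intro Γ _ v hv V e i hi _
    exact fac4_cg hv H.pf hi

/-- class (d) -/
theorem LH_d (hMG : S_MG) (hUN : S_UN) (hQPT : S_QPT) (hLIM : S_LIM) (hERD : S_ERD) (hPHD : S_PHD)
    (hLHD : S_LHD) (H : Da pr V O e) (h4 : ∀ i ∈ V, e i % 4 ≠ 0) :
    LH (XXd H.pf V e) (1 / 2) ≠ 0 := by
  obtain ⟨L, Ω, hGL⟩ := exists_lat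
  have hfin := H385.he1_finite (DD_ne H.pf V)
  let _ := Fintype.ofFinite (RQ (DD pr V))
  obtain ⟨w, hw, hW⟩ : ∃ w, (w = 1 ∨ w = 3) ∧ Wt pr V e % 4 = w := by
    have := H.odd
    exact ⟨Wt pr V e % 4, by omega, rfl⟩
  rw [hLHD ι pr H.pf V e h4 _ (hLIM L Ω hGL ι pr H.pf V e w hw hW)]
  refine (map_ne_zero _).2 ?_
  have hsd : tc (sd (DD pr V)) ≠ 0 := by
    unfold sd
    split_ifs
    · rw [tc_one]; exact one_ne_zero
    · rw [tc_neg, tc_one]; exact neg_ne_zero.2 one_ne_zero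
  have he1 : ℘[L] (Ω / 2) ≠ 0 := by
    intro h0
    have := hGL.e1_sq
    rw [h0] at this
    norm_num at this
  have hcw : cw L Ω w ≠ 0 := by
    unfold cw
    split_ifs
    · exact he1
    · exact one_ne_zero
  have h1I : (1 + I : ℂ) ≠ 0 := one_I_ne
  refine mul_ne_zero (mul_ne_zero hsd (div_ne_zero (mul_ne_zero hGL.lat.ne hcw)
    (mul_ne_zero h1I (tc_ne (DD_ne H.pf V))))) ?_
  refine ne_of_cg hMG H hGL hw hW (pr_ndvd_four H.pf) (g := gd L (kp L Ω) w)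
    (fun x y h => gd_per L _ _ h) (fun x => gd_I hGL.lat _ hw x) ?_
    (fun V e i => tc (sd (pr i)) * tc (pr i) - tc (c4 pr V e (pr i))) ?_ ?_
  · intro Γ _ v hv x hx
    exact (hUN L Ω hGL Γ v hv x hx).2 _ (hQPT L Ω hGL).2.2.2 w
  · intro V e i hi he hW
    exact hERD L Ω hGL ι pr H.pf V e w i hw hi he hW
  · intro Γ _ v hv V e i hi _
    exact hPHD Γ v hv ι pr H.pf V e i hi

end classes

end Pool.Agent.L7h3.QD
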