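import Pool.Agent.L7h3.QD.Stm

/-!
# Euler products with arbitrary factors above two
-/

set_option autoImplicit false
set_option linter.unusedSectionVars false

open NumberField IsDedekindDomain

namespace Pool.Agent.L7h3.QD

open scoped Classical
open WithZero
open Pool.Agent.L7h3.MQ
open Pool.Agent.L7h3.MR
open Pool.Agent.W189.NF
open ArithmeticFunction hiding map_zero
open Pool.Agent.H921R2.TatePole (nm two_le_nm nm_summable below)
open Pool.Agent.Y696 (HBd LSeries_hasProd' coeff_bd)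
open Pool.Agent.Y715.Z (q4)

/-- a bound for the coefficients of a local factor -/
def HB (a e : ℤ) (q : ℕ) : Prop := HBd a e q ∨ (e = 0 ∧ |a| ≤ 1)

lemma coeff_bdB {a e : ℤ} {q : ℕ} (hq : 1 ≤ q) (h : HB a e q) {c : ℕ → ℤ} (h0 : c 0 = 1) (h1 : c 1 = a)
    (h2 : ∀ k, c (k + 2) = a * c (k + 1) - e * c k) (n : ℕ) :
    |(c n : ℝ)| ≤ (n + 1) * (Real.sqrt q) ^ n := by
  rcases h with h | ⟨rfl, ha⟩
  · exact coeff_bd h h0 h1 h2 n
  · have hc : ∀ k, |c k| ≤ 1 := by
      intro k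
      induction k with
      | zero => rw [h0]; simp
      | succ k ih =>
        rcases k with _ | k
        · rw [h1]; exact ha
        · rw [h2, zero_mul, sub_zero, abs_mul]
          calc |a| * |c (k + 1)| ≤ 1 * 1 := by gcongr
            _ = 1 := one_mul 1
    have h3 : |((c n : ℤ) : ℝ)| ≤ 1 := by exact_mod_cast hc n
    have h4 : (1 : ℝ) ≤ Real.sqrt q := by
      rw [Real.one_le_sqrt]
      exact_mod_cast hq
    have h5 : (1 : ℝ) ≤ Real.sqrt q ^ n := one_le_pow₀ h4
    have h6 : (0 : ℝ) ≤ n := by positivity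
    nlinarith

variable {K : Type} [Field K] [NumberField K]

/-- the power series of local factors -/
noncomputable def psr (a e : ℤ) : PowerSeries ℤ := PowerSeries.invOfUnit
  ((1 - Polynomial.C a * Polynomial.X + Polynomial.C e * Polynomial.X ^ 2 :
      Polynomial ℤ) : PowerSeries ℤ) 1

theorem fdataB {a e : HeightOneSpectrum (𝓞 K) → ℤ} (hE : ∀ v, HB (a v) (e v) (nm v)) {σ : ℝ}
    (hσ : 3 / 2 < σ) : FData (fun v : HeightOneSpectrum (𝓞 K) => nm v) (fun v => psr (a v) (e v)) σ where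
  two_le := two_le_nm
  north := northcott_nm
  const := fun v => by
    rw [← PowerSeries.coeff_zero_eq_constantCoeff]
    exact (inv_coeff (a v) (e v)).1
  sum := by
    have hg : Summable fun n : ℕ => ((n : ℝ) + 2) * (1 / 2 : ℝ) ^ n := by
      have g1 := summable_pow_mul_geometric_of_norm_lt_one (R := ℝ) 1 (r := 1 / 2)
        (by rw [Real.norm_eq_abs]; norm_num [abs_of_pos])
      have g2 := summable_geometric_of_lt_one (r := (1 / 2 : ℝ)) (by norm_num) (by norm_num)
      refine (g1.add (g2.mul_left 2)).congr fun n => ?_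
      ring
    have h1 := ((nm_summable (K := K) (x := σ - 1 / 2) (by linarith))).mul_of_nonneg hg
      (fun v => by positivity) (fun n => by positivity)
    refine Summable.of_nonneg_of_le (fun x => by positivity) (fun x => ?_) h1
    obtain ⟨v, n⟩ := x
    simp only
    have hq2 : (2 : ℝ) ≤ nm v := by exact_mod_cast two_le_nm v
    have hq0 : (0 : ℝ) < nm v := by linarith
    obtain ⟨e0, e1, e2⟩ := inv_coeff (a v) (e v)
    have h3 := coeff_bdB (by have := two_le_nm v; omega) (hE v) (c := fun k => (psr (a v) (e v)).coeff k)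
      e0 e1 e2 (n + 1)
    have h4 : (nm v : ℝ) ^ (-(σ * (n + 1))) = ((nm v : ℝ) ^ (-σ)) ^ (n + 1) := by
      rw [← Real.rpow_natCast, ← Real.rpow_mul hq0.le]
      congr 1
      push_cast
      ring
    rw [h4]
    set y := (nm v : ℝ) ^ (-(σ - 1 / 2)) with hy
    have hy0 : 0 ≤ y := by positivity
    have h5 : Real.sqrt (nm v) * (nm v : ℝ) ^ (-σ) = y := by
      rw [hy, Real.sqrt_eq_rpow, ← Real.rpow_add hq0]
      congr 1
      ring
    have hy1 : y ≤ 1 / 2 := by
      calc y ≤ (nm v : ℝ) ^ (-1 : ℝ) :=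
            Real.rpow_le_rpow_of_exponent_le (by linarith) (by linarith)
        _ = (nm v : ℝ)⁻¹ := Real.rpow_neg_one _
        _ ≤ 2⁻¹ := inv_anti₀ (by norm_num) hq2
        _ = 1 / 2 := by norm_num
    calc |(((psr (a v) (e v)).coeff (n + 1) : ℤ) : ℝ)| * ((nm v : ℝ) ^ (-σ)) ^ (n + 1) ≤
        (((n + 1 : ℕ) : ℝ) + 1) * Real.sqrt (nm v) ^ (n + 1) * ((nm v : ℝ) ^ (-σ)) ^ (n + 1) := by
          gcongr
      _ = ((n : ℝ) + 2) * (Real.sqrt (nm v) * (nm v : ℝ) ^ (-σ)) ^ (n + 1) := by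
          rw [mul_pow]; push_cast; ring
      _ = y * (((n : ℝ) + 2) * y ^ n) := by rw [h5, pow_succ]; ring
      _ ≤ y * (((n : ℝ) + 2) * (1 / 2) ^ n) := by gcongr

/-- **the Euler product** of arbitrary local data -/
theorem hasProdB {a e : HeightOneSpectrum (𝓞 K) → ℤ} (hE : ∀ v, HB (a v) (e v) (nm v)) {s : ℂ}
    (hs : 3 / 2 < s.re) : HasProd (fun v : HeightOneSpectrum (𝓞 K) =>
      (1 - (a v : ℂ) * (nm v : ℂ) ^ (-s) + (e v : ℂ) * ((nm v : ℂ) ^ (-s)) ^ 2)⁻¹)
    (LSeries (toC (eulerProduct fun v : HeightOneSpectrum (𝓞 K) =>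
      ofPowerSeries (nm v) (psr (a v) (e v)))) s) := by
  have h1 := (fdataB hE hs).main (s := s) le_rfl
  have h3 : (fun v : HeightOneSpectrum (𝓞 K) =>
      (1 - (a v : ℂ) * (nm v : ℂ) ^ (-s) + (e v : ℂ) * ((nm v : ℂ) ^ (-s)) ^ 2)⁻¹) =
      fun v => ∑' k : ℕ, ((psr (a v) (e v)).coeff k : ℂ) * ((nm v : ℂ) ^ (-s)) ^ k := by
    funext v
    obtain ⟨e0, e1, e2⟩ := inv_coeff (a v) (e v)
    refine (rec_sum (c := fun k => (psr (a v) (e v)).coeff k) e0 e1 e2 ?_).symm
    have h4 := (fdataB hE hs).single v (τ := s.re) le_rfl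
    refine Summable.of_norm_bounded h4 fun k => ?_
    have hq0 : (0 : ℝ) ≤ nm v := by positivity
    rw [norm_mul, norm_pow, Complex.norm_intCast,
      Complex.norm_natCast_cpow_of_pos (by have := two_le_nm v; omega)]
    apply le_of_eq
    congr 1
    rw [Complex.neg_re, ← Real.rpow_natCast, ← Real.rpow_mul hq0]
    congr 1
    ring
  rw [h3]
  exact h1.2

/-- the `L`-series converges absolutely -/
theorem LSeries_sumB {E : WeierstrassCurve K} (hE : ∀ v : HeightOneSpectrum (𝓞 K),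
    HB (aV E v) (eV E v) (nm v)) {s : ℂ} (hs : 3 / 2 < s.re) :
    LSeriesSummable ((fun n : ℤ => (n : ℂ)) ∘ E.LFunction) s := by
  have h1 := (fdataB hE hs).main (s := s) le_rfl
  have h2 : E.LFunction = eulerProduct fun v : HeightOneSpectrum (𝓞 K) =>
      ofPowerSeries (nm v) (psr (aV E v) (eV E v)) := by
    rw [LFunction_eq]
    congr 1
    funext v
    rw [locPS_eq]
    rfl
  rw [← h2] at h1
  have h3 : (toC E.LFunction) = (fun n : ℤ => (n : ℂ)) ∘ E.LFunction := rfl
  rw [← h3]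
  exact h1.1

/-- the Euler product of the `L`-series of a curve -/
theorem LSeries_hasProdB {E : WeierstrassCurve K} (hE : ∀ v : HeightOneSpectrum (𝓞 K),
    HB (aV E v) (eV E v) (nm v)) {s : ℂ} (hs : 3 / 2 < s.re) :
    HasProd (fun v : HeightOneSpectrum (𝓞 K) => Fac E s v) (E.LSeries s) := by
  have h1 := hasProdB hE hs
  have h2 : E.LFunction = eulerProduct fun v : HeightOneSpectrum (𝓞 K) =>
      ofPowerSeries (nm v) (psr (aV E v) (eV E v)) := by
    rw [LFunction_eq]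
    congr 1
    funext v
    rw [locPS_eq]
    rfl
  rw [← h2] at h1
  exact h1

/-- the factors without the places above two -/
noncomputable def Fi (δ : K) (s : ℂ) (v : HeightOneSpectrum (𝓞 K)) : ℂ :=
  if (2 : 𝓞 K) ∈ v.asIdeal then 1 else Fac (q4 δ) s v

lemma Fi_mul {δ : K} (hδ : δ ≠ 0) {s : ℂ} (hs : 3 / 2 < s.re) : Multipliable (Fi δ s) := by
  have h1 := hasProdB (a := fun v => if (2 : 𝓞 K) ∈ v.asIdeal then 0 else aV (q4 δ) v)
    (e := fun v => if (2 : 𝓞 K) ∈ v.asIdeal then 0 else eV (q4 δ) v) (by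
      intro v
      beta_reduce
      split_ifs with h
      · exact Or.inl (Or.inl ⟨rfl, rfl⟩)
      · exact Or.inl (hbd_gen h hδ)) hs
  refine h1.multipliable.congr fun v => ?_
  unfold Fi
  split_ifs with h
  · simp
  · rfl

section step

variable {F F' : Type} [Field F] [NumberField F] [Field F'] [NumberField F'] [Algebra F F']

/-- **the step**: the L-series without the places above two -/
theorem col_step (h2 : Module.finrank F F' = 2) {θ : F'} {d δ : F}
    (hθ : θ ^ 2 = algebraMap F F' d) (hn : θ ∉ Set.range (algebraMap F F')) (hδ : δ ≠ 0)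
    (h3 : CoL δ) (h4 : CoL (δ * d ^ 2)) : CoL (algebraMap F F' δ) := by
  obtain ⟨σ, hσ, -, -⟩ := quad_conj h2 hθ hn
  have hd : d ≠ 0 := by
    rintro rfl
    apply hn
    rw [map_zero] at hθ
    exact ⟨0, by rw [map_zero]; exact (pow_eq_zero_iff two_ne_zero |>.1 hθ).symm⟩
  obtain ⟨L1, a1, b1, c1⟩ := h3
  obtain ⟨L2, a2, b2, c2⟩ := h4
  refine ⟨fun s => L1 s * L2 s, a1.mul a2, mul_ne_zero b1 b2, fun s hs => ?_⟩
  have hδ' : algebraMap F F' δ ≠ 0 := by rwa [Ne, map_eq_zero]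
  obtain ⟨z, hz⟩ := Fi_mul hδ' hs
  have h4 := (Equiv.sigmaFiberEquiv (und (F := F) (F' := F'))).hasProd_iff.2 hz
  have h5 : HasProd (fun P : HeightOneSpectrum (𝓞 F) =>
      ∏ v : {v : HeightOneSpectrum (𝓞 F') // und v = P}, Fi (algebraMap F F' δ) s v.1) z := by
    refine h4.sigma fun P => ?_
    exact hasProd_fintype _ (.unconditional _)
  have h6 : z = L1 s * L2 s := by
    refine h5.unique (((c1 s hs).mul (c2 s hs)).congr_fun fun P => ?_)
    by_cases hP : (2 : 𝓞 F) ∈ P.asIdeal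
    · rw [if_pos hP, if_pos hP, one_mul]
      refine Finset.prod_eq_one fun v _ => ?_
      have h8 : (2 : 𝓞 F) ∈ (und (F := F) v.1).asIdeal := by rw [v.2]; exact hP
      rw [mem_und, map_ofNat] at h8
      unfold Fi
      rw [if_pos h8]
    · rw [if_neg hP, if_neg hP, ← fib_gen h2 σ hθ hσ hδ hd hP s]
      refine Finset.prod_congr rfl fun v _ => ?_
      have h8 : (2 : 𝓞 F') ∉ v.1.asIdeal := by
        intro h
        have h9 : (2 : 𝓞 F) ∈ (und (F := F) v.1).asIdeal := by rw [mem_und, map_ofNat]; exact h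
        rw [v.2] at h9
        exact hP h9
      unfold Fi
      rw [if_neg h8]
  show HasProd (Fi (algebraMap F F' δ) s) (L1 s * L2 s)
  rw [← h6]
  exact hz

/-- finitely many points, and the L-series without the places above two -/
def Co2 {K : Type} [Field K] [NumberField K] (δ : K) : Prop :=
  Finite (q4 δ).toAffine.Point ∧ CoL δ

theorem co2_step (h2 : Module.finrank F F' = 2) {θ : F'} {d δ : F}
    (hθ : θ ^ 2 = algebraMap F F' d) (hn : θ ∉ Set.range (algebraMap F F')) (hδ : δ ≠ 0)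
    (h3 : Co2 δ) (h4 : Co2 (δ * d ^ 2)) : Co2 (algebraMap F F' δ) :=
  ⟨fin_step h2 hθ hn hδ h3.1 h4.1, col_step h2 hθ hn hδ h3.2 h4.2⟩

end step

/-- twists by fourth powers -/
theorem co2_scale {δ c : K} (hδ : δ ≠ 0) (hc : c ≠ 0) (h : Co2 δ) : Co2 (δ * c ^ 4) := by
  have hδc : δ * c ^ 4 ≠ 0 := mul_ne_zero hδ (pow_ne_zero 4 hc)
  refine ⟨?_, ?_⟩
  · rw [sol_finite hδc]
    have h1 := (sol_finite hδ).1 h.1
    refine (h1.image (fun p : K × K => (c ^ 2 * p.1, c ^ 3 * p.2))).subset ?_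
    rintro ⟨x, y⟩ hxy
    have hxy' : y ^ 2 = x ^ 3 + δ * c ^ 4 * x := hxy
    refine ⟨(x / c ^ 2, y / c ^ 3), ?_, ?_⟩
    · show (y / c ^ 3) ^ 2 = (x / c ^ 2) ^ 3 + δ * (x / c ^ 2)
      rw [div_pow, hxy']
      field_simp
    · show (c ^ 2 * (x / c ^ 2), c ^ 3 * (y / c ^ 3)) = (x, y)
      rw [mul_div_cancel₀ _ (pow_ne_zero 2 hc), mul_div_cancel₀ _ (pow_ne_zero 3 hc)]
  · obtain ⟨L, a, b, hL⟩ := h.2
    refine ⟨L, a, b, fun s hs => (hL s hs).congr_fun fun v => ?_⟩
    by_cases hv : (2 : 𝓞 K) ∈ v.asIdeal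
    · rw [if_pos hv, if_pos hv]
    · rw [if_neg hv, if_neg hv]
      obtain ⟨m, hm⟩ := exists_val v hδ
      obtain ⟨l, hl⟩ := exists_val v hc
      have hdd : v.valuation K (δ * c ^ 4) = exp (-(m + 4 * l)) := by
        rw [map_mul, map_pow, hm, hl, ← exp_nsmul, ← exp_add]
        congr 1
        simp only [nsmul_eq_mul]
        push_cast
        ring
      by_cases hm4 : m % 4 = 0
      · obtain ⟨k', hk'⟩ : ∃ k', m = 4 * k' := ⟨m / 4, by omega⟩
        obtain ⟨a, t, ha, ht, hat⟩ := norm_form v (n := 4) (by norm_num) (x := δ) (k := k') (by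
          rw [hm, hk']; rfl)
        have e1 : δ * c ^ 4 = (a : K) * (t * c) ^ 4 := by rw [hat]; ring
        rw [Fac_scale (two_not_mem hv ha) ht s hat,
          Fac_scale (two_not_mem hv ha) (mul_ne_zero ht hc) s e1]
      · rw [Fac_bad hv s hm hm4, Fac_bad hv s hdd (by omega)]

end Pool.Agent.L7h3.QD
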