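import Pool.Agent.L7h3.QD.Fld

/-!
# The places above two of a quadratic extension that is ramified at `1 + i`
-/

set_option autoImplicit false
set_option linter.unusedSectionVars false

open NumberField IsDedekindDomain

namespace Pool.Agent.L7h3.QD

open scoped Classical
open WithZero
open Pool.Agent.Y699
open Pool.Agent.L7h3.MQ
open Pool.Agent.L7h3.MR
open H385 (ZI RQ im1 nrm)
open Pool.Agent.W164.RC (tc_mul tc_star two2 prim_iff_dvd unit_norm unit_cases Ip Ip_spec)
open Pool.Agent.H304R2.EC.A1 (prim prim_mul prim_cancel prim_one prim_norm_odd prim_star eq_one_of_prim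
  norm_def' re_mul' im_mul' eq_of_dvd prim_ne_zero exists_prim)
open Pool.Agent.H921R2.TatePole (nm two_le_nm nm_summable below)
open Pool.Agent.Y715.Z

section quad

variable {F F' : Type} [Field F] [NumberField F] [Field F'] [NumberField F'] [Algebra F F']

lemma ff_le (h2 : Module.finrank F F' = 2) {P : HeightOneSpectrum (𝓞 F)}
    {v : HeightOneSpectrum (𝓞 F')} (hv : und v = P) : ff P v ≤ 2 ∧ (ee P v = 2 → ff P v = 1) := by
  rcases split_cases h2 P with ⟨v1, v2, hne, hall, hef⟩ | ⟨v0, hall, hef⟩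
  · have h3 := hef v hv
    exact ⟨by omega, fun _ => h3.2⟩
  · have h := (hall v).1 hv
    subst h
    constructor
    · exact Nat.le_of_dvd (by norm_num) ⟨ee P v, by rw [mul_comm]; exact hef.symm⟩
    · intro h3
      rw [h3] at hef
      omega

end quad

section base

variable {K M : Type} [Field K] [NumberField K] [Field M] [NumberField M] [Algebra K M]

lemma sub_one_eq {D : ZI} (hD : prim D) (him : D.im % 4 = 2) :
    ∃ u : ZI, D - 1 = pi1 ^ 3 * u ∧ ¬ pi1 ∣ u := by
  obtain ⟨h1, h2⟩ := hD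
  -- `D - 1 = (-2 + 2 i) u`, `u = (D - 1) (-2 - 2 i) / 8`
  refine ⟨⟨(-(D.re - 1) + D.im) / 4, (-(D.re - 1) - D.im) / 4⟩, ?_, ?_⟩
  · have e3 : (pi1 ^ 3 : ZI) = ⟨-2, 2⟩ := by decide
    rw [e3]
    ext
    · rw [re_mul']
      simp only [Zsqrtd.re_sub, Zsqrtd.re_one]
      omega
    · rw [im_mul']
      simp only [Zsqrtd.im_sub, Zsqrtd.im_one]
      omega
  · rw [← norm_odd_iff, norm_def']
    simp only
    have ha : ((-(D.re - 1) + D.im) / 4) % 2 = 1 ∧ ((-(D.re - 1) - D.im) / 4) % 2 = 0 ∨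
        ((-(D.re - 1) + D.im) / 4) % 2 = 0 ∧ ((-(D.re - 1) - D.im) / 4) % 2 = 1 := by omega
    generalize (-(D.re - 1) + D.im) / 4 = x at *
    generalize (-(D.re - 1) - D.im) / 4 = y at *
    rcases ha with ⟨a, b⟩ | ⟨a, b⟩
    · obtain ⟨m, hm⟩ : ∃ m, x = 2 * m + 1 := ⟨x / 2, by omega⟩
      obtain ⟨n, hn⟩ : ∃ n, y = 2 * n := ⟨y / 2, by omega⟩
      rw [hm, hn]
      have : (2 * m + 1) ^ 2 + (2 * n) ^ 2 = 2 * (2 * m ^ 2 + 2 * m + 2 * n ^ 2) + 1 := by ring
      omega
    · obtain ⟨m, hm⟩ : ∃ m, x = 2 * m := ⟨x / 2, by omega⟩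
      obtain ⟨n, hn⟩ : ∃ n, y = 2 * n + 1 := ⟨y / 2, by omega⟩
      rw [hm, hn]
      have : (2 * m) ^ 2 + (2 * n + 1) ^ 2 = 2 * (2 * m ^ 2 + 2 * n + 2 * n ^ 2) + 1 := by ring
      omega

lemma base_pi (e : ZI ≃+* 𝓞 K) (P : HeightOneSpectrum (𝓞 K)) (hP : (2 : 𝓞 K) ∈ P.asIdeal) :
    pg e P = pi1 ∧ nm P = 2 ∧ P = plc e pi1_prime := by
  have hsp := pg_span e P
  have h2 : (2 : 𝓞 K) = e 2 := (map_ofNat e 2).symm
  have hz : pg e P = pi1 := by
    rcases pg_cases e P with ⟨h1, h3⟩ | ⟨h1, h3⟩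
    · exact h3
    · exfalso
      have hPP : PP (pg e P) := ⟨(Ip_spec (below P).2 h3).2.1, (Ip_spec (below P).2 h3).1⟩
      rw [h2, mem_iff e hsp] at hP
      exact not_dvd_two hPP hP
  refine ⟨hz, ?_, ?_⟩
  · have h3 : nm P = nrm (pg e P) := norm_pg e hsp
    rw [h3, hz]
    decide
  · apply HeightOneSpectrum.ext
    rw [hsp, hz]
    rfl

lemma val_three (e : ZI ≃+* 𝓞 K) {P : HeightOneSpectrum (𝓞 K)} (hP : (2 : 𝓞 K) ∈ P.asIdeal)
    {D : ZI} (hD : prim D) (him : D.im % 4 = 2) :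
    P.valuation K (((e D : 𝓞 K) : K) - 1) = exp (-3 : ℤ) := by
  obtain ⟨-, -, hPe⟩ := base_pi e P hP
  obtain ⟨u, hu, hnu⟩ := sub_one_eq hD him
  have h1 : ((e D : 𝓞 K) : K) - 1 = (em0 e pi1) ^ 3 * em0 e u := by
    have h2 : ((e (D - 1) : 𝓞 K) : K) = ((e (pi1 ^ 3 * u) : 𝓞 K) : K) := by rw [hu]
    rw [map_sub, map_one, map_mul, map_pow] at h2
    exact h2
  rw [h1, hPe, map_mul, map_pow, val_one e pi1_prime hnu, mul_one, val_z, ← exp_nsmul]
  congr 1

/-- **the places above two**: `θ² = D`, `D` primary with imaginary part `2` modulo `4` -/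
theorem nm_two (e : ZI ≃+* 𝓞 K) (h2 : Module.finrank K M = 2) {D : ZI} (hD : prim D)
    (him : D.im % 4 = 2) {θ : M} (hθ : θ ^ 2 = algebraMap K M ((e D : 𝓞 K) : K))
    (v : HeightOneSpectrum (𝓞 M)) (hv : (2 : 𝓞 M) ∈ v.asIdeal) : nm v = 2 := by
  set P : HeightOneSpectrum (𝓞 K) := und v with hPdef
  have hP : (2 : 𝓞 K) ∈ P.asIdeal := by rw [mem_und, map_ofNat]; exact hv
  obtain ⟨-, hn, -⟩ := base_pi e P hP
  have h3 := val_three e hP hD him
  have h4 := base_two e P hP
  have hpow := nm_pow (v := v) (P := P) rfl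
  have hee : ee P v = 2 := by
    rcases ee_cases h2 (v := v) (P := P) rfl with h | h
    · exfalso
      have e1 : v.valuation M (θ - 1) * v.valuation M (θ + 1) = exp (-3 : ℤ) := by
        rw [← map_mul]
        have e2 : (θ - 1) * (θ + 1) = algebraMap K M (((e D : 𝓞 K) : K) - 1) := by
          rw [map_sub, map_one, ← hθ]; ring
        rw [e2, val_und (F := K) (P := P) rfl, h, pow_one, h3]
      have e2 : v.valuation M 2 = exp (-2 : ℤ) := by
        have h5 := val_und (F := K) (v := v) (P := P) rfl 2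
        rw [h, pow_one, h4, map_ofNat] at h5
        exact h5
      have n1 : θ - 1 ≠ 0 := by
        intro h0
        rw [h0, map_zero, zero_mul] at e1
        exact exp_ne_zero e1.symm
      have n2 : θ + 1 ≠ 0 := by
        intro h0
        rw [h0, map_zero, mul_zero] at e1
        exact exp_ne_zero e1.symm
      obtain ⟨m, hm⟩ := exists_val v n1
      obtain ⟨n, hn'⟩ := exists_val v n2
      rw [hm, hn', ← exp_add, exp_inj] at e1
      have e3 : θ + 1 = (θ - 1) + 2 := by ring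
      by_cases hm2 : m = 2
      · have h5 := (v.valuation M).map_add (θ - 1) 2
        rw [← e3, hm, hn', e2, hm2, max_self, exp_le_exp] at h5
        omega
      · have h5 := (v.valuation M).map_add_of_distinct_val (x := θ - 1) (y := 2) (by
          rw [hm, e2, Ne, exp_inj]; omega)
        rw [← e3, hm, hn', e2] at h5
        rcases lt_or_gt_of_ne hm2 with h6 | h6
        · rw [max_eq_left (by rw [exp_le_exp]; omega), exp_inj] at h5
          omega
        · rw [max_eq_right (by rw [exp_le_exp]; omega), exp_inj] at h5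
          omega
    · exact h
  rw [hpow, (ff_le h2 (v := v) (P := P) rfl).2 hee, pow_one, hn]

/-- the next quadratic extension -/
theorem nm_four {F : Type} [Field F] [NumberField F] [Algebra M F] (h2 : Module.finrank M F = 2)
    (h : ∀ v : HeightOneSpectrum (𝓞 M), (2 : 𝓞 M) ∈ v.asIdeal → nm v = 2)
    (w : HeightOneSpectrum (𝓞 F)) (hw : (2 : 𝓞 F) ∈ w.asIdeal) : nm w ≤ 4 := by
  have hP : (2 : 𝓞 M) ∈ (und (F := M) w).asIdeal := by rw [mem_und, map_ofNat]; exact hw
  rw [nm_pow (F := M) (v := w) (P := und w) rfl, h _ hP]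
  have h3 := (ff_le h2 (v := w) (P := und w) rfl).1
  calc 2 ^ ff (und (F := M) w) w ≤ 2 ^ 2 := Nat.pow_le_pow_right (by norm_num) h3
    _ = 4 := by norm_num

end base

end Pool.Agent.L7h3.QD
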