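import Pool.Agent.L7h3.QD.Bas
import Pool.Agent.L7h3.QD.Ful
import Pool.Agent.L7h3.QD.Nm4
import Pool.Agent.L7h3.QE.Tq

/-!
# The quartic extensions
-/

set_option autoImplicit false
set_option linter.unusedSectionVars false

open NumberField IsDedekindDomain

namespace Pool.Agent.L7h3.QD

open scoped Classical
open WithZero
open Pool.Agent.Y699
open Pool.Agent.L7h3.MQ
open Pool.Agent.L7h3.MR
open Pool.Agent.L7h3.QE (low low_top mem_low)
open H385 (ZI RQ im1 nrm)
open Pool.Agent.W164.RC (tc_mul tc_star two2 prim_iff_dvd unit_norm unit_cases Ip Ip_spec)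
open Pool.Agent.H304R2.EC.A1 (prim prim_mul prim_cancel prim_one prim_norm_odd prim_star eq_one_of_prim
  norm_def' re_mul' im_mul' eq_of_dvd prim_ne_zero exists_prim)
open Pool.Agent.H921R2.TatePole (nm two_le_nm nm_summable below)
open Pool.Agent.Y715.Z

variable {K : Type} [Field K] [NumberField K] (e : ZI ≃+* 𝓞 K)

variable {ι : Type} [Fintype ι] [DecidableEq ι] {pr : ι → ZI} {V O : Finset ι} {ex : ι → ℕ}

lemma Da.im (H : Da pr V O ex) : (DE pr V ex).im % 4 = 2 := by
  have h1 := norm_DE16 H.pf V ex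
  have h2 := H.odd
  have h3 : (DE pr V ex).norm % 8 = 5 := by omega
  obtain ⟨h4, h5⟩ := DE_prim H.pf V ex
  rw [norm_def'] at h3
  by_contra h6
  obtain ⟨b, hb⟩ : ∃ b, (DE pr V ex).im = 4 * b := ⟨(DE pr V ex).im / 4, by omega⟩
  obtain ⟨a, ha⟩ : ∃ a, (DE pr V ex).re = 2 * a + 1 := ⟨(DE pr V ex).re / 2, by omega⟩
  rw [ha, hb] at h3
  have e1 : (2 * a + 1) ^ 2 + (4 * b) ^ 2 = 4 * (a * (a + 1)) + 16 * b ^ 2 + 1 := by ring
  rw [e1] at h3
  obtain ⟨c, hc⟩ := Int.even_mul_succ_self a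
  rw [hc] at h3
  omega

lemma Da.ne (H : Da pr V O ex) : O.Nonempty := by
  by_contra hc
  rw [Finset.not_nonempty_iff_eq_empty] at hc
  have := H.wt1
  rw [hc, Finset.sum_empty] at this
  exact absurd this (by decide)

lemma Da.three (H : Da pr V O ex) : Da pr V O (fun i => 3 * ex i) :=
  ⟨H.pf, H.sub, H.wt1, H.ker, H.non, fun i hi => by rw [← H.par i hi]; omega⟩

lemma DE_three (V : Finset ι) (ex : ι → ℕ) : DE pr V (fun i => 3 * ex i) = DE pr V ex ^ 3 := by
  unfold DE
  rw [← Finset.prod_pow]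
  refine Finset.prod_congr rfl fun i _ => ?_
  rw [← pow_mul, mul_comm]

/-- the valuation at a prime with an odd exponent -/
lemma val_DE (H : Da pr V O ex) {i : ι} (hi : i ∈ O) :
    (plc e (H.pf.pp i).pr).valuation K (em0 e (DE pr V ex)) = exp (-(ex i : ℤ)) := by
  have hz := (H.pf.pp i).pr
  have hiV := H.sub hi
  have h3 : DE pr V ex = pr i ^ ex i * DE pr (V.erase i) ex := by
    unfold DE
    exact (Finset.mul_prod_erase V (fun i => pr i ^ ex i) hiV).symm
  have h4' : ¬ pr i ∣ DE pr (V.erase i) ex := by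
    intro h
    unfold DE at h
    obtain ⟨j, hj, hzj⟩ := (hz.dvd_finsetProd_iff _).1 h
    have h5 := (H.pf.pp i).eq_of_dvd (H.pf.pp j) (hz.dvd_of_dvd_pow hzj)
    exact (Finset.mem_erase.1 hj).1 (H.pf.inj h5).symm
  rw [h3, map_mul, map_mul, val_one e hz h4', mul_one, map_pow, map_pow, val_z, ← exp_nsmul]
  congr 1
  simp

lemma val_sg (H : Da pr V O ex) {σ : ZI} (hσ : σ = 1 ∨ σ = -1) {i : ι} (hi : i ∈ O) :
    (plc e (H.pf.pp i).pr).valuation K (em0 e (σ * DE pr V ex)) = exp (-(ex i : ℤ)) := by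
  rcases hσ with rfl | rfl
  · rw [one_mul]; exact val_DE e H hi
  · rw [neg_one_mul, map_neg, Valuation.map_neg]; exact val_DE e H hi

/-- **the quartic extensions** -/
theorem quartic (P : Parts) (H : Da pr V O ex) {σ : ZI} (hσ : σ = 1 ∨ σ = -1)
    {F : Type} [Field F] [NumberField F] [Algebra K F] {η : F}
    (hη : η ^ 4 = algebraMap K F (em0 e (σ * DE pr V ex)))
    (htop : IntermediateField.adjoin K {η} = ⊤) :
    Module.finrank K F = 4 ∧ Finite (q4 (-1 : F)).toAffine.Point ∧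
      ∃ L : ℂ → ℂ, DifferentiableOn ℂ L {s | 1 / 2 < s.re} ∧ L 1 ≠ 0 ∧
        ∀ s : ℂ, 3 / 2 < s.re →
          LSeriesSummable ((fun n : ℤ => (n : ℂ)) ∘ (q4 (-1 : F)).LFunction) s ∧
            L s = (q4 (-1 : F)).LSeries s := by
  set δ : K := em0 e (σ * DE pr V ex) with hδ
  obtain ⟨i, hi⟩ := H.ne
  have hodd : ex i % 2 = 1 := (H.par i (H.sub hi)).2 hi
  have hv := val_sg e H hσ hi
  rw [← hδ] at hv
  have hδ0 : δ ≠ 0 := by
    intro h0
    rw [h0, map_zero] at hv
    exact exp_ne_zero hv.symm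
  -- the intermediate field
  set M := IntermediateField.adjoin K (({η ^ 2} : Finset F) : Set F) with hM
  have hxM : η ^ 2 ∈ M := IntermediateField.subset_adjoin K _ (by simp)
  set x : M := ⟨η ^ 2, hxM⟩ with hx
  have hx2 : x ^ 2 = algebraMap K M δ := by
    apply Subtype.ext
    show (η ^ 2) ^ 2 = algebraMap K F δ
    rw [← pow_mul, ← hη]
  have hnx : x ∉ Set.range (algebraMap K M) := by
    rintro ⟨y, hy⟩
    rw [← hy, ← map_pow] at hx2
    have h1 : y ^ 2 = δ := (algebraMap K M).injective hx2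
    have hy0 : y ≠ 0 := by
      rintro rfl
      apply hδ0
      rw [← h1]; simp
    obtain ⟨m, hm⟩ := exists_val (plc e (H.pf.pp i).pr) hy0
    rw [← h1, map_pow, hm, ← exp_nsmul, exp_inj] at hv
    simp only [nsmul_eq_mul] at hv
    push_cast at hv
    omega
  have htopM : IntermediateField.adjoin K {x} = ⊤ := by
    have h1 := low_top ({η ^ 2} : Finset F) hM
    have h2 : ((low M ({η ^ 2} : Finset F) : Finset M) : Set M) = {x} := by
      ext t
      rw [Finset.mem_coe, mem_low, Finset.mem_singleton, Set.mem_singleton_iff, hx, Subtype.ext_iff]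
    rwa [h2] at h1
  have hKM : Module.finrank K M = 2 := finrank_two (x := x) (c := δ) hx2 hnx htopM
  -- the upper extension
  have hη2 : η ^ 2 = algebraMap M F x := rfl
  have hnη : η ∉ Set.range (algebraMap M F) := by
    rintro ⟨y, hy⟩
    rw [← hy, ← map_pow] at hη2
    have h1 : y ^ 2 = x := (algebraMap M F).injective hη2
    have h2 : y ^ 4 = algebraMap K M δ := by
      have : y ^ 4 = (y ^ 2) ^ 2 := by ring
      rw [this, h1, hx2]
    obtain ⟨w, hw⟩ : ∃ w : HeightOneSpectrum (𝓞 M), und w = plc e (H.pf.pp i).pr := by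
      rcases split_cases hKM (plc e (H.pf.pp i).pr) with ⟨v1, v2, hne, hall, hef⟩ | ⟨v0, hall, hef⟩
      · exact ⟨v1, (hall v1).2 (Or.inl rfl)⟩
      · exact ⟨v0, (hall v0).2 rfl⟩
    have h3 := val_und hw δ
    have hy0 : y ≠ 0 := by
      rintro rfl
      have h5 : algebraMap K M δ = 0 := by rw [← h2]; simp
      rw [map_eq_zero] at h5
      exact hδ0 h5
    obtain ⟨m, hm⟩ := exists_val w hy0
    rw [← h2, map_pow, hm, hv, ← exp_nsmul, ← exp_nsmul, exp_inj] at h3
    simp only [nsmul_eq_mul] at h3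
    push_cast at h3
    rcases ee_cases hKM hw with h4 | h4
    · rw [h4] at h3; push_cast at h3; omega
    · rw [h4] at h3; push_cast at h3; omega
  have htopF : IntermediateField.adjoin M {η} = ⊤ := by
    rw [eq_top_iff]
    intro y _
    have hy : y ∈ (⊤ : IntermediateField K F) := trivial
    rw [← htop] at hy
    have hle : IntermediateField.adjoin K {η} ≤
        (IntermediateField.adjoin M {η}).restrictScalars K := by
      rw [IntermediateField.adjoin_le_iff]
      intro t ht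
      rw [Set.mem_singleton_iff] at ht
      rw [ht]
      exact IntermediateField.mem_adjoin_simple_self M η
    exact hle hy
  have hMF : Module.finrank M F = 2 := finrank_two (x := η) (c := x) hη2 hnη htopF
  -- the steps
  have hσ2 : σ * σ = 1 := by rcases hσ with rfl | rfl <;> ring
  have hsq : δ ^ 2 = em0 e (DE pr V ex) ^ 2 := by
    rw [hδ, ← map_pow, ← map_pow]
    congr 1
    linear_combination (DE pr V ex ^ 2) * hσ2
  have c1 : Co2 (-1 : K) := P.base K e
  have c2 : Co2 (-1 * δ ^ 2 : K) := by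
    rw [neg_one_mul, hsq]
    exact co2_sq e P H
  have c34 : Co2 (-δ : K) ∧ Co2 (-δ * δ ^ 2 : K) := by
    have e3 : -δ * δ ^ 2 = -δ ^ 3 := by ring
    rw [e3, hδ]
    rcases hσ with rfl | rfl
    · rw [one_mul]
      refine ⟨co2_neg e P H, ?_⟩
      have := co2_neg e P H.three
      rw [DE_three, map_pow] at this
      exact this
    · have e4 : (-em0 e (-1 * DE pr V ex) : K) = em0 e (DE pr V ex) := by
        rw [neg_one_mul, map_neg, neg_neg]
      have e5 : (-(em0 e (-1 * DE pr V ex)) ^ 3 : K) = em0 e (DE pr V ex) ^ 3 := by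
        rw [neg_one_mul, map_neg]; ring
      rw [e4, e5]
      refine ⟨co2_pos e P H, ?_⟩
      have := co2_pos e P H.three
      rw [DE_three, map_pow] at this
      exact this
  have m1 : Co2 (algebraMap K M (-1)) := co2_step hKM hx2 hnx (neg_ne_zero.2 one_ne_zero) c1 c2
  have m2 : Co2 (algebraMap K M (-δ)) := co2_step hKM hx2 hnx (neg_ne_zero.2 hδ0) c34.1 c34.2
  have e1 : algebraMap K M (-1) = -1 := by rw [map_neg, map_one]
  have e2 : algebraMap K M (-δ) = -1 * x ^ 2 := by rw [map_neg, ← hx2]; ring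
  rw [e1] at m1
  rw [e2] at m2
  have f1 : Co2 (algebraMap M F (-1)) := co2_step hMF hη2 hnη (neg_ne_zero.2 one_ne_zero) m1 m2
  have e6 : algebraMap M F (-1) = -1 := by rw [map_neg, map_one]
  rw [e6] at f1
  -- the places above two
  have hj : (em0 e im1 : K) ^ 2 = -1 := by
    rw [← map_pow]
    have : (im1 : ZI) ^ 2 = -1 := by decide
    rw [this, map_neg, map_one]
  obtain ⟨θ, hθ⟩ : ∃ θ : M, θ ^ 2 = algebraMap K M ((e (DE pr V ex) : 𝓞 K) : K) := by
    rcases hσ with rfl | rfl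
    · exact ⟨x, by rw [hx2, hδ, one_mul]; rfl⟩
    · refine ⟨algebraMap K M (em0 e im1) * x, ?_⟩
      rw [mul_pow, ← map_pow, hj, hx2, ← map_mul, hδ]
      congr 1
      rw [neg_one_mul, neg_one_mul, map_neg, neg_neg]
      rfl
  have hnm2 := fun v hv => nm_two e hKM (DE_prim H.pf V ex) H.im hθ v hv
  have hnm4 : ∀ w : HeightOneSpectrum (𝓞 F), (2 : 𝓞 F) ∈ w.asIdeal → nm w ≤ 4 :=
    fun w hw => nm_four hMF hnm2 w hw
  refine ⟨?_, f1.1, full (neg_ne_zero.2 one_ne_zero) f1.2 hnm4⟩
  rw [← Module.finrank_mul_finrank K M F, hKM, hMF]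

end Pool.Agent.L7h3.QD
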