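import Pool.Agent.L7h3.MR.Kr

/-!
# Project QD (helper3): `E : y² = x³ - x` over the quartic extensions `ℚ(i)(D^(1/4))`

New `2`-adic classes of quartic twists over `K = ℚ(i)`. Notation of the library `Pool/Agent/Y699`:
`pr : ι → ZI` a family of distinct primary primes (`PF pr`), `DD pr V = ∏ i ∈ V, pr i`,
`c4 pr V e a = ∏ i ∈ V, (a / pr i)_4 ^ e i` the quartic character, `wq π = (N π - 1) / 4`,
`Wt pr V e = ∑ e i * wq (pr i)`, `MQ.DE pr V e = ∏ pr i ^ e i`.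

* class (b), done in `Y699/Qm..Qw`: `y² = x³ + DE x`, `Wt = 3 mod 4`, function `hh L`;
* class (a), NEW: `y² = x³ + DE x`, `Wt = 1 mod 4` (good reduction at `1 + i`), function `ga L`;
* class (d), NEW: `y² = x³ - DE x`, `Wt` odd, functions `gd L κ 1`, `gd L κ 3`.
-/

set_option autoImplicit false
set_option linter.unusedVariables false
set_option linter.unusedSectionVars false

open NumberField IsDedekindDomain
open Filter Complex
open scoped Topology PeriodPair Classical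

namespace Pool.Agent.L7h3.QD

open Pool.Agent.Y699
open Pool.Agent.TH936.CM
open Pool.Agent.L7h3.MQ (DE TE Fac)
open H385 (ZI RQ im1 nrm)
open Pool.Agent.W164.RC (tc_mul tc_star two2 prim_iff_dvd unit_norm unit_cases)
open Pool.Agent.H304R2.EC.A1 (prim prim_mul prim_cancel prim_one prim_norm_odd prim_star eq_one_of_prim
  norm_def' re_mul' im_mul' eq_of_dvd prim_ne_zero exists_prim)
open Pool.Agent.H304R3.HK (tc HC LH)

/-! ## The functions on the division points -/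

/-- class (a) -/
noncomputable def ga (L : PeriodPair) (x : ℂ) : ℂ := ℘'[L] x / (℘[L] x * (1 + I) ^ 3)

/-- the polynomial of the points of order four -/
noncomputable def qp (L : PeriodPair) (x : ℂ) : ℂ := ℘[L] x ^ 4 - 6 * ℘[L] x ^ 2 + 1

/-- class (d); `κ ^ 2 = 8` -/
noncomputable def gd (L : PeriodPair) (κ : ℂ) (w : ℕ) (x : ℂ) : ℂ :=
  if w = 1 then (1 + I) * κ * (℘[L] x * ℘'[L] x) / qp L x
  else (1 + I) * (κ / 2) * (℘'[L] x * (℘[L] x ^ 2 - 1)) / qp L x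

/-- the constant `κ = ± 2 √2` -/
noncomputable def kp (L : PeriodPair) (Ω : ℂ) : ℂ := ℘[L] (Ω / 4) + (℘[L] (Ω / 4))⁻¹

/-- QD-UN: the values at the odd torsion points are congruent to one. Model: `hh_cg` in
`Y699/Qv.lean`. With `x = ℘ z`, `u = ℘ ((1+I) z)`, `u' = ℘ ((1+I)² z)`: `x² - 1 = 2 I x u`,
`u² - 1 = 2 I u u'` (`GLat.mul_pi`), `℘'² = 8 I x² u`, hence `ga² = -u`,
`x⁴ - 6x² + 1 = -8 x² (1 + I u u')`, `gd κ 1 ² = -2 u / (1 + I u u')²`,
`gd κ 3 ² = 2 u³ / (1 + I u u')²` and `(1 + I u u') / (1 + I) ≡ 1` because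
`((u - 1) / (1 + I)) ≡ 1` and the same for `u'` (from `u² - 1 = 2 I u u'`). -/
def S_UN : Prop := ∀ (L : PeriodPair) (Ω : ℂ), GLat L Ω →
  ∀ (Γ : Type) [LinearOrderedCommGroupWithZero Γ] (v : Valuation ℂ Γ), v 2 < 1 →
  ∀ z : ℂ, OT L z → Cg v (ga L z) 1 ∧ ∀ κ : ℂ, κ ^ 2 = 8 → ∀ w : ℕ, Cg v (gd L κ w z) 1

/-- QD-NZ: the denominators are not zero at the odd torsion points (from the same identities, with
`exists_val`) -/
def S_NZ : Prop := ∀ (L : PeriodPair) (Ω : ℂ), GLat L Ω → ∀ z : ℂ, OT L z →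
  ℘[L] z ≠ 0 ∧ qp L z ≠ 0

/-- QD-QPT: the points of order four. `p = ℘ (Ω/4)`, `e = ℘ (Ω/2)`, `e² = 1` (`GLat.e1_sq`):
duplication gives `p² = 2 e p + 1`; translation by the point `I Ω / 2` gives the second value
(`(3 + 2 I) Ω / 4 = - Ω / 4 + I Ω / 2` modulo the lattice). -/
def S_QPT : Prop := ∀ (L : PeriodPair) (Ω : ℂ), GLat L Ω →
  ℘[L] (Ω / 4) ≠ 0 ∧ ℘[L] (Ω / 4) ^ 2 = 2 * ℘[L] (Ω / 2) * ℘[L] (Ω / 4) + 1 ∧
  ℘[L] ((3 + 2 * I) * (Ω / 4)) = -(℘[L] (Ω / 4))⁻¹ ∧ kp L Ω ^ 2 = 8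

/-! ## The values -/

/-- the value attached to a function `g` on the division points (`M4` is the case `g = hh L`,
`c = 2`) -/
noncomputable def MG (g : ℂ → ℂ) (c : ZI) (Ω : ℂ) {ι : Type} (pr : ι → ZI) (V : Finset ι) (e : ι → ℕ)
    [Fintype (RQ (DD pr V))] : ℂ :=
  1 / 4 * ∑ q : RQ (DD pr V), tc (c4 pr V e (c * q.out)) * g (zq Ω (DD pr V) q.out)

/-- QD-MG: the main congruence. Port of `Y699/Qw.lean` (`M4_cg`; there `w = 3`, `c = 2`,
`g = hh L` and `φ V e i = tc (pr i) - tc (c4 pr V e (pr i))`). -/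
def S_MG : Prop := ∀ (L : PeriodPair) (Ω : ℂ), GLat L Ω →
  ∀ (Γ : Type) [LinearOrderedCommGroupWithZero Γ] (v : Valuation ℂ Γ), v 2 < 1 →
  ∀ (ι : Type) [Fintype ι] [DecidableEq ι] (pr : ι → ZI), PF pr →
  ∀ w : ℕ, (w = 1 ∨ w = 3) → ∀ c : ZI, (∀ i, ¬ pr i ∣ c) →
  ∀ g : ℂ → ℂ, (∀ x y : ℂ, x - y ∈ L.lattice → g x = g y) →
    (∀ x : ℂ, g (I * x) = (if w = 1 then -I else I) * g x) → (∀ x : ℂ, OT L x → Cg v (g x) 1) →
  ∀ φ : Finset ι → (ι → ℕ) → ι → ℂ,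
    (∀ (V : Finset ι) (e : ι → ℕ) (i : ι), i ∈ V → e i = 0 → Wt pr V e % 4 = w →
      ∀ [Fintype (RQ (DD pr V))] [Fintype (RQ (DD pr (V.erase i)))],
      MG g c Ω pr V e = MG g c Ω pr (V.erase i) e * φ (V.erase i) e i) →
    (∀ (V : Finset ι) (e : ι → ℕ) (i : ι), i ∉ V → Wt pr V e % 4 = w →
      Cg v (φ V e i / (1 + I)) (uu (∑ u ∈ Od V e, em pr u i))) →
  ∀ (V : Finset ι) (e : ι → ℕ), Wt pr V e % 4 = w → ∀ [Fintype (RQ (DD pr V))],
    Cg v (MG g c Ω pr V e / (1 + I) ^ (V.card - 1)) (uu (TQ pr V (Od V e)))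

/-! ## Class (d): limits -/

/-- the sign `(-1) ^ ((N a - 1) / 4)` of a primary element -/
def sd (a : ZI) : ZI := if a.im % 4 = 0 then 1 else -1

/-- the factor of the limit -/
noncomputable def cw (L : PeriodPair) (Ω : ℂ) (w : ℕ) : ℂ := if w = 1 then ℘[L] (Ω / 2) else 1

/-- the twisted character on primary elements -/
noncomputable def ccd {ι : Type} (pr : ι → ZI) (V : Finset ι) (e : ι → ℕ) (a : ZI) : ℂ :=
  if prim a then tc (sd a) * tc (c4 pr V e a) else 0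

/-- QD-DIV: the limit of the division sum. Model: `lim_A` in `Y699/Qn.lean`. Averaging over the
units: `w = 1`: `1/4 (Dd z τ + Dd z (Iτ) - Dd z (cτ) - Dd z (I c τ))`; `w = 3`:
`1/4 (Dd z τ - Dd z (Iτ) - Dd z (cτ) + Dd z (I c τ))` with `τ = Ω/4`, `c = 3 + 2I`,
`Dd z t = ℘' z / (℘ z - ℘ t)` (`lim_Dd`); with `S_QPT` the values are
`cw L Ω w * gd L (kp L Ω) w z / (1 + I)`. -/
def S_DIV : Prop := ∀ (L : PeriodPair) (Ω : ℂ), GLat L Ω → ∀ D : ZI, prim D → ∀ [Fintype (RQ D)],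
  ∀ w : ℕ, (w = 1 ∨ w = 3) → ∀ F : ZI → ℂ, (∀ a b, D ∣ a - b → F a = F b) →
    (∀ a, F (im1 * a) = I ^ w * F a) → (∀ a, D ∣ a → F a = 0) →
  Tendsto (fun δ : ℝ => ∑ q : RQ D, F q.out * (EG Ω δ (Ω / 4 + zq Ω D q.out) -
      EG Ω δ ((3 + 2 * I) * (Ω / 4) + zq Ω D q.out))) (𝓝[>] 0)
    (𝓝 (cw L Ω w / (1 + I) * ∑ q : RQ D, F q.out * gd L (kp L Ω) w (zq Ω D q.out)))

/-- QD-RSD: the regularized sum as a sum over the division points. Models: `RS_two`, `RS_cc4` in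
`Y699/Qm.lean`. (The primary `a` with `sd a = sd D` are the `D + 4 t`, the others the
`(3 + 2i) D + 4 t`.) -/
def S_RSD : Prop := ∀ (L : PeriodPair) (Ω : ℂ), IsLat L RG Ω → ∀ (ι : Type) [DecidableEq ι]
  (pr : ι → ZI), PF pr → ∀ (V : Finset ι) (e : ι → ℕ) [Fintype (RQ (DD pr V))] (δ : ℝ), 0 < δ →
  RS (ccd pr V e) δ = tc (sd (DD pr V)) * (Ω / (4 * tc (DD pr V))) *
    ∑ q : RQ (DD pr V), tc (c4 pr V e (4 * q.out)) *
      (EG Ω (δ * Complex.normSq (4 * tc (DD pr V) / Ω)) (Ω / 4 + zq Ω (DD pr V) q.out) -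
       EG Ω (δ * Complex.normSq (4 * tc (DD pr V) / Ω)) ((3 + 2 * I) * (Ω / 4) + zq Ω (DD pr V) q.out))

/-- QD-LIM (from `S_DIV`, `S_RSD`; model `lim_cc4` in `Y699/Qn.lean`) -/
def S_LIM : Prop := ∀ (L : PeriodPair) (Ω : ℂ), GLat L Ω → ∀ (ι : Type) [DecidableEq ι]
  (pr : ι → ZI), PF pr → ∀ (V : Finset ι) (e : ι → ℕ) (w : ℕ), (w = 1 ∨ w = 3) →
  Wt pr V e % 4 = w → ∀ [Fintype (RQ (DD pr V))],
  Tendsto (RS (ccd pr V e)) (𝓝[>] 0)
    (𝓝 (tc (sd (DD pr V)) * (Ω * cw L Ω w / ((1 + I) * tc (DD pr V))) *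
      MG (gd L (kp L Ω) w) 4 Ω pr V e))

/-- QD-ERD (from `S_LIM`): a vanishing exponent. Model: `M4_erase` in `Y699/Qv.lean`. -/
def S_ERD : Prop := ∀ (L : PeriodPair) (Ω : ℂ), GLat L Ω → ∀ (ι : Type) [DecidableEq ι]
  (pr : ι → ZI), PF pr → ∀ (V : Finset ι) (e : ι → ℕ) (w : ℕ) (i : ι), (w = 1 ∨ w = 3) →
  i ∈ V → e i = 0 → Wt pr V e % 4 = w →
  ∀ [Fintype (RQ (DD pr V))] [Fintype (RQ (DD pr (V.erase i)))],
  MG (gd L (kp L Ω) w) 4 Ω pr V e = MG (gd L (kp L Ω) w) 4 Ω pr (V.erase i) e *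
    (tc (sd (pr i)) * tc (pr i) - tc (c4 pr (V.erase i) e (pr i)))

/-- QD-PHD: the factor. Model: `fac4_cg` in `Y699/Qv.lean` (can be used: the difference is
`(tc (sd π) - 1) * tc π / (1 + I)`, `sd π = ± 1`). -/
def S_PHD : Prop := ∀ (Γ : Type) [LinearOrderedCommGroupWithZero Γ] (v : Valuation ℂ Γ), v 2 < 1 →
  ∀ (ι : Type) [Fintype ι] [DecidableEq ι] (pr : ι → ZI), PF pr → ∀ (V : Finset ι) (e : ι → ℕ) (i : ι),
  i ∉ V → Cg v ((tc (sd (pr i)) * tc (pr i) - tc (c4 pr V e (pr i))) / (1 + I))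
    (uu (∑ u ∈ Od V e, em pr u i))

/-! ## Class (a): the erasing relation, and the link with the central value -/

/-- QD-ERA: a vanishing exponent, class (a). Let `P = Ω (1 + I) / 2` (`℘ P = 0`, `2 P` and `I P - P` in
the lattice) and `N_V(δ) = ∑ q, c4(q) (EG Ω δ (z_q + P) - EG Ω δ z_q)`; its limit for `δ → 0` is
`1/2 ∑ c4(q) Dd z_q P = 2 (1 + I)^3 MG (ga L) 1 Ω pr V e`. On the other hand `(Ω / D) ∑ c4(q) EG(z_q)`
and `(Ω / ((1+I) D)) c4(1+i) ∑ c4(q) EG(z_q + P)` are regularized sums (`RS`) of `c4` over all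
elements, resp. over the odd elements (with scaled `δ`), and for these erasing an exponent that is
zero multiplies by `1 - c4(π)/π` with scaled `δ` (as in `M4_erase`, tool `RS_dvd`): so
`N_V(δ) = π N_{V'}(δ') - c4(π) N_{V'}(δ)` with `δ' = δ / |π|²` (or similar). Let `δ → 0`. -/
def S_ERA : Prop := ∀ (L : PeriodPair) (Ω : ℂ), GLat L Ω → ∀ (ι : Type) [DecidableEq ι]
  (pr : ι → ZI), PF pr → ∀ (V : Finset ι) (e : ι → ℕ) (i : ι),
  i ∈ V → e i = 0 → Wt pr V e % 4 = 1 →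
  ∀ [Fintype (RQ (DD pr V))] [Fintype (RQ (DD pr (V.erase i)))],
  MG (ga L) 1 Ω pr V e = MG (ga L) 1 Ω pr (V.erase i) e *
    (tc (pr i) - tc (c4 pr (V.erase i) e (pr i)))

/-! ## The Hecke characters -/

variable {ι : Type} [DecidableEq ι] {pr : ι → ZI}

/-- class (a): unramified at `1 + i` -/
noncomputable def XXa (hp : PF pr) (V : Finset ι) (e : ι → ℕ) : ZI →* ℂ where
  toFun a := (starRingEnd ℂ) (tc (c4 pr V e a))
  map_one' := by
    rw [c4_one hp, tc_one]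
    simp
  map_mul' := by
    intro a b
    rw [c4_mul hp, tc_mul, map_mul]

lemma XXa_apply (hp : PF pr) (V : Finset ι) (e : ι → ℕ) (a : ZI) :
    XXa hp V e a = (starRingEnd ℂ) (tc (c4 pr V e a)) := rfl

lemma sd_mul {a b : ZI} (ha : prim a) (hb : prim b) : sd (a * b) = sd a * sd b := by
  obtain ⟨a1, a2⟩ := ha
  obtain ⟨b1, b2⟩ := hb
  obtain ⟨x, hx⟩ : ∃ x, a.im = 2 * x := ⟨a.im / 2, by omega⟩
  obtain ⟨y, hy⟩ : ∃ y, b.im = 2 * y := ⟨b.im / 2, by omega⟩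
  obtain ⟨m, hm⟩ : ∃ m, a.re = 2 * m + 1 := ⟨a.re / 2, by omega⟩
  obtain ⟨n, hn⟩ : ∃ n, b.re = 2 * n + 1 := ⟨b.re / 2, by omega⟩
  have h : (a * b).im = 2 * (x + y) + 4 * (m * y + n * x) := by
    rw [im_mul', hx, hy, hm, hn]
    ring
  have h2 : (a * b).im % 4 = 2 * (x + y) % 4 := by omega
  have hx2 : a.im % 4 = 2 * x % 4 := by rw [hx]
  have hy2 : b.im % 4 = 2 * y % 4 := by rw [hy]
  unfold sd
  rw [h2, hx2, hy2]
  have c1 : 2 * x % 4 = 0 ∨ 2 * x % 4 = 2 := by omega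
  have c2 : 2 * y % 4 = 0 ∨ 2 * y % 4 = 2 := by omega
  rcases c1 with c1 | c1 <;> rcases c2 with c2 | c2
  · rw [if_pos (by omega), if_pos c1, if_pos c2]; ring
  · rw [if_neg (by omega), if_pos c1, if_neg (by omega)]; ring
  · rw [if_neg (by omega), if_neg (by omega), if_pos c2]; ring
  · rw [if_pos (by omega), if_neg (by omega), if_neg (by omega)]; ring

/-- class (d): conductor `4 D` -/
noncomputable def XXd (hp : PF pr) (V : Finset ι) (e : ι → ℕ) : ZI →* ℂ where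
  toFun a := tc (un a) * (starRingEnd ℂ) (tc (sd (un a * a)) * tc (c4 pr V e (un a * a)))
  map_one' := by
    rw [un_prim prim_one, one_mul, c4_one hp, tc_one]
    have : sd 1 = 1 := by unfold sd; rw [if_pos (by decide)]
    rw [this, tc_one]
    simp
  map_mul' := by
    intro a b
    have e1 : un (a * b) * (a * b) = (un a * a) * (un b * b) := by rw [un_mul]; ring
    by_cases ha : a.norm % 2 = 1
    · by_cases hb : b.norm % 2 = 1
      · obtain ⟨u, hu⟩ := exists_Um ha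
        obtain ⟨w, hw⟩ := exists_Um hb
        have h1 : prim (un a * a) := by rw [un_eq hu]; exact hu.2
        have h2 : prim (un b * b) := by rw [un_eq hw]; exact hw.2
        rw [e1, c4_mul hp, un_mul, sd_mul h1 h2, tc_mul, tc_mul, tc_mul]
        simp only [map_mul]
        ring
      · rw [un_mul, un_even hb, mul_zero, tc_zero]
        simp
    · rw [un_mul, un_even ha, zero_mul, tc_zero]
      simp

lemma XXd_apply (hp : PF pr) (V : Finset ι) (e : ι → ℕ) (a : ZI) :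
    XXd hp V e a = tc (un a) * (starRingEnd ℂ) (tc (sd (un a * a)) * tc (c4 pr V e (un a * a))) := rfl

end Pool.Agent.L7h3.QD

namespace Pool.Agent.L7h3.QD

open Pool.Agent.Y699
open Pool.Agent.L7h3.MQ (DE TE Fac)
open H385 (ZI RQ im1 nrm)
open Pool.Agent.H304R2.EC.A1 (prim)
open Pool.Agent.H304R3.HK (tc HC LH)

/-- QD-HCA: port of `XX4_HC` (`Y699/Qc.lean`), simpler; `unit`: `c4 (im1) = im1` as `Wt = 1` -/
def S_HCA : Prop := ∀ (ι : Type) [DecidableEq ι] (pr : ι → ZI) (hp : PF pr) (V : Finset ι) (e : ι → ℕ),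
  Wt pr V e % 4 = 1 → (∀ i ∈ V, e i % 4 ≠ 0) → HC (DD pr V) (XXa hp V e)

/-- QD-HCD: port of `XX4_HC` (`Y699/Qc.lean`), simpler (no condition on `Wt`); for `prim`, case
`d = D f` with `f` a proper divisor of `4`: use `a = 1 + (1+i)^3 D`, then `sd a = -1` -/
def S_HCD : Prop := ∀ (ι : Type) [DecidableEq ι] (pr : ι → ZI) (hp : PF pr) (V : Finset ι) (e : ι → ℕ),
  (∀ i ∈ V, e i % 4 ≠ 0) → HC (4 * DD pr V) (XXd hp V e)

/-- QD-LHD (from `S_HCD`): the central value is the conjugate of the limit. Models: `sum_XX4`,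
`LH_eq4` in `Y699/Qm.lean`. -/
def S_LHD : Prop := ∀ (ι : Type) [DecidableEq ι] (pr : ι → ZI) (hp : PF pr) (V : Finset ι) (e : ι → ℕ),
  (∀ i ∈ V, e i % 4 ≠ 0) → ∀ l : ℂ, Tendsto (RS (ccd pr V e)) (𝓝[>] 0) (𝓝 l) →
  LH (XXd hp V e) (1 / 2) = (starRingEnd ℂ) l

/-- QD-LHA (from `S_HCA`): the non-vanishing in class (a). By `center`, the regularized sum of `c4`
over ALL elements tends to `4 conj (LH ..)`; if this is zero, then the sum over the odd elements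
(`RS_odd(δ) = RS_all(δ) - (c4(1+i) / (1+i)) RS_all(2 δ)`) tends to zero as well, and so does
`N_V(δ)` of `S_ERA`; hence `MG (ga L) 1 = 0`. -/
def S_LHA : Prop := ∀ (L : PeriodPair) (Ω : ℂ), GLat L Ω → ∀ (ι : Type) [DecidableEq ι]
  (pr : ι → ZI) (hp : PF pr) (V : Finset ι) (e : ι → ℕ), Wt pr V e % 4 = 1 →
  (∀ i ∈ V, e i % 4 ≠ 0) → ∀ [Fintype (RQ (DD pr V))],
  LH (XXa hp V e) (1 / 2) = 0 → MG (ga L) 1 Ω pr V e = 0

/-! ## L-series without the places above two -/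

/-- the L-series of `y² = x³ + δ x` without the Euler factors above two is entire and not zero at
`s = 1` -/
def CoL {K : Type} [Field K] [NumberField K] (δ : K) : Prop :=
  ∃ L : ℂ → ℂ, Differentiable ℂ L ∧ L 1 ≠ 0 ∧ ∀ s : ℂ, 3 / 2 < s.re →
    HasProd (fun v : HeightOneSpectrum (𝓞 K) =>
      if (2 : 𝓞 K) ∈ v.asIdeal then 1 else Fac (Pool.Agent.Y715.Z.q4 δ) s v) (L s)

/-- QD-LF: from a Hecke character to the L-series (odd places only). Models: `locR`, `base4` in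
`L7h3/MR/Kr.lean`, `g1_hasProd`, `g2_hasProd` in `Y699/Qe.lean` (these assume `X pi1 = 0`; if
`X pi1 ≠ 0`, class (a), generalize: the proof of `g1_hasProd` works with the factor at `pi1`; the
incomplete function is `LG X s` times the inverses of the two factors at `1 + i`, which are not zero at
`s = 1` because `|X(1+i) (1+i) 2^(-1)| < 1`). -/
def S_LF : Prop := ∀ (K : Type) [Field K] [NumberField K] (e : ZI ≃+* 𝓞 K) (cn : ZI) (X : ZI →* ℂ),
  HC cn X → LH X (1 / 2) ≠ 0 → ∀ δ : ZI, δ ≠ 0 →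
  (∀ z : ZI, PP z → ¬ z ∣ δ → X z = (starRingEnd ℂ) (tc (Pool.Agent.Y699.q4 z (-δ)))) →
  (∀ z : ZI, PP z → z ∣ δ → X z = 0 ∧ ∃ m : ℕ, m % 4 ≠ 0 ∧ z ^ m ∣ δ ∧ ¬ z ^ (m + 1) ∣ δ) →
  CoL (((e δ : 𝓞 K) : K))

/-- QD-REC: quartic reciprocity (model `recE` in `L7h3/MQ/Ae.lean`), and the sign -/
def S_REC : Prop := ∀ (J : JJ) (ι : Type) [DecidableEq ι] (pr : ι → ZI), PF pr →
  ∀ (V : Finset ι) (e : ι → ℕ), Wt pr V e % 2 = 1 → ∀ z : ZI, PP z → (∀ i ∈ V, z ≠ pr i) →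
  Pool.Agent.Y699.q4 z (-(DE pr V e)) = c4 pr V e z ∧
  Pool.Agent.Y699.q4 z (DE pr V e) = sd z * c4 pr V e z

/-! ## The points -/

/-- QD-SQC: the classes of the abscissas. Class (a) and (b): `square_classE` in `L7h3/MQ/Ad.lean`
(there `B = + DD pr V * T ^ 2`); here the same for `B = - DD pr V * T ^ 2` (`-1` is a square). -/
def S_SQC : Prop := ∀ (F : Type) [Field F] [Algebra ZI F] [IsFractionRing ZI F]
  (ι : Type) [Fintype ι] [DecidableEq ι] (pr : ι → ZI), PF pr → ∀ V : Finset ι,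
  ∑ i ∈ V, wt pr i = 1 →
  (∀ z : ι → ZMod 2, (∀ v ∈ V, ∑ u ∈ V, em pr u v * (z u + z v) = 0) →
      ∀ u ∈ V, ∀ v ∈ V, z u = z v) →
  ∀ T : ZI, T ≠ 0 → (∀ ρ : ZI, Prime ρ → ρ ∣ T → ρ ∣ DD pr V) →
  ∀ x y : F, y ≠ 0 → y ^ 2 = x ^ 3 + algebraMap ZI F (-(DD pr V * T ^ 2)) * x →
    ∃ w : F, x = w ^ 2 ∨ x = algebraMap ZI F (-(DD pr V * T ^ 2)) * w ^ 2

/-- QD-FIN: finiteness from the `(1+i)`-descent. Every point `P` with `x(P) = w²` is
`(1 + I) R` with `x(R) = I (w² ± y/w)`; adding `T = (0,0)` (`x ↦ B / x`) one gets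
`E(K) = {0, T} + 2 E(K)` and with the theorem of Mordell-Weil (`Pool/Agent/H64R2/DD_MWK.lean`,
`Pool/Agent/H437R2/Man/MWWeak.lean` `pt_fg`) `E(K)` is finite. -/
def S_FIN : Prop := ∀ (K : Type) [Field K] [NumberField K] (j : K), j ^ 2 = -1 → ∀ B : K, B ≠ 0 →
  (∀ x y : K, y ≠ 0 → y ^ 2 = x ^ 3 + B * x → ∃ w : K, x = w ^ 2 ∨ x = B * w ^ 2) →
  Finite (Pool.Agent.Y715.Z.q4 B).toAffine.Point

/-- QD-BASE: the curve `y² = x³ - x` over `ℚ(i)` (points: descent or Fermat; L-function: the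
character `XX` of `Y699/Chi.lean` with `V = ∅` and `S_LF` with `δ = -1`; central value: `RS` of the
primary elements is an `EG` at the point `Ω / (2 + 2i)`, see `Y699/Reg.lean`). -/
def S_BASE : Prop := ∀ (K : Type) [Field K] [NumberField K] (e : ZI ≃+* 𝓞 K),
  Finite (Pool.Agent.Y715.Z.q4 (-1 : K)).toAffine.Point ∧ CoL (-1 : K)

/-- QD-SQ: the twists `y² = x³ - D² x`, `D = DD pr V`, `N(D) = 5` modulo `8` (`LH_ne` in
`Y699/Cen.lean`, `no_points` in `Y699/Rk.lean`, `S_LF` with `δ = -D²`). -/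
def S_SQ : Prop := ∀ (K : Type) [Field K] [NumberField K] (e : ZI ≃+* 𝓞 K)
  (ι : Type) [Fintype ι] [DecidableEq ι] (pr : ι → ZI), PF pr → ∀ V : Finset ι, V.Nonempty →
  ∑ i ∈ V, wt pr i = 1 →
  (∀ z : ι → ZMod 2, (∀ v ∈ V, ∑ u ∈ V, em pr u v * (z u + z v) = 0) →
      ∀ u ∈ V, ∀ v ∈ V, z u = z v) →
  Finite (Pool.Agent.Y715.Z.q4 (-(((e (DD pr V) : 𝓞 K) : K)) ^ 2)).toAffine.Point ∧
    CoL (-(((e (DD pr V) : 𝓞 K) : K)) ^ 2)

end Pool.Agent.L7h3.QD
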